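import Mathlib

open Set Filter Topology MeasureTheory
open scoped ENNReal

namespace Pool.Agent.H312.NearOne

lemma inner_s {t : ℝ} (ht : 0 < t) :
    ∫⁻ s in Ioi (0:ℝ), ENNReal.ofReal (s * Real.exp (-(s * t)) * (1 - Real.cos t))
      = ENNReal.ofReal ((1 - Real.cos t) / t^2) := by
  have hc : 0 ≤ 1 - Real.cos t := by linarith [Real.cos_le_one t]
  have hd : ∀ s ∈ Ici (0:ℝ), HasDerivAt (fun s : ℝ => -((s / t + 1 / t^2) * Real.exp (-(s * t))) *
      (1 - Real.cos t)) (s * Real.exp (-(s * t)) * (1 - Real.cos t)) s := by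
    intro s _
    have h1 : HasDerivAt (fun s : ℝ => Real.exp (-(s * t))) (Real.exp (-(s * t)) * (-(1 * t))) s :=
      (((hasDerivAt_id s).mul_const t).neg).exp
    have h2 : HasDerivAt (fun s : ℝ => s / t + 1 / t^2) (1 / t) s :=
      ((hasDerivAt_id s).div_const t).add_const _
    have h3 := ((h2.mul h1).neg).mul_const (1 - Real.cos t)
    refine h3.congr_deriv ?_
    field_simp
    ring
  have hpos : ∀ s ∈ Ioi (0:ℝ), 0 ≤ s * Real.exp (-(s * t)) * (1 - Real.cos t) := by
    intro s hs
    have := Real.exp_pos (-(s * t))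
    have hs' : 0 < s := hs
    positivity
  have hlim : Tendsto (fun s : ℝ => -((s / t + 1 / t^2) * Real.exp (-(s * t))) *
      (1 - Real.cos t)) atTop (𝓝 0) := by
    have h1 : Tendsto (fun s : ℝ => s * t) atTop atTop := tendsto_id.atTop_mul_const ht
    have h2 : Tendsto (fun s : ℝ => (s * t) * Real.exp (-(s * t))) atTop (𝓝 0) := by
      have := (Real.tendsto_pow_mul_exp_neg_atTop_nhds_zero 1).comp h1
      simpa [Function.comp_def] using this
    have h3 : Tendsto (fun s : ℝ => Real.exp (-(s * t))) atTop (𝓝 0) :=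
      (Real.tendsto_exp_neg_atTop_nhds_zero).comp h1
    have h4 : Tendsto (fun s : ℝ => -(((s * t) * Real.exp (-(s * t))) * (1/t^2) +
      (1 / t^2) * Real.exp (-(s * t))) * (1 - Real.cos t)) atTop
      (𝓝 (-((0 * (1/t^2)) + (1/t^2) * 0) * (1 - Real.cos t))) :=
      (((h2.mul_const _).add (h3.const_mul _)).neg).mul_const _
    simp only [zero_mul, mul_zero, add_zero, neg_zero] at h4
    refine h4.congr (fun s => ?_)
    field_simp
  have hi := integral_Ioi_of_hasDerivAt_of_nonneg' hd hpos hlim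
  have hint := integrableOn_Ioi_deriv_of_nonneg' hd hpos hlim
  rw [← ofReal_integral_eq_lintegral_ofReal hint
    ((ae_restrict_iff' measurableSet_Ioi).2 (Eventually.of_forall hpos)), hi]
  congr 1
  simp
  field_simp

lemma inner_t {s : ℝ} (hs : 0 < s) :
    ∫⁻ t in Ioi (0:ℝ), ENNReal.ofReal (s * Real.exp (-(s * t)) * (1 - Real.cos t))
      = ENNReal.ofReal ((1 + s^2)⁻¹) := by
  have hd : ∀ t ∈ Ici (0:ℝ), HasDerivAt (fun t : ℝ => -Real.exp (-(s * t)) -
      s / (s^2 + 1) * (Real.exp (-(s * t)) * (Real.sin t - s * Real.cos t)))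
      (s * Real.exp (-(s * t)) * (1 - Real.cos t)) t := by
    intro t _
    have h1 : HasDerivAt (fun t : ℝ => Real.exp (-(s * t))) (Real.exp (-(s * t)) * (-(s * 1))) t :=
      (((hasDerivAt_id t).const_mul s).neg).exp
    have h2 : HasDerivAt (fun t : ℝ => Real.sin t - s * Real.cos t)
      (Real.cos t - s * (-Real.sin t)) t :=
      (Real.hasDerivAt_sin t).sub ((Real.hasDerivAt_cos t).const_mul s)
    have h3 := (h1.neg).sub ((h1.mul h2).const_mul (s / (s^2 + 1)))
    refine h3.congr_deriv ?_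
    field_simp
    ring
  have hpos : ∀ t ∈ Ioi (0:ℝ), 0 ≤ s * Real.exp (-(s * t)) * (1 - Real.cos t) := by
    intro t _
    have := Real.exp_pos (-(s * t))
    have hc : 0 ≤ 1 - Real.cos t := by linarith [Real.cos_le_one t]
    positivity
  have hlim : Tendsto (fun t : ℝ => -Real.exp (-(s * t)) -
      s / (s^2 + 1) * (Real.exp (-(s * t)) * (Real.sin t - s * Real.cos t))) atTop (𝓝 0) := by
    have h1 : Tendsto (fun t : ℝ => s * t) atTop atTop := tendsto_id.const_mul_atTop hs
    have h3 : Tendsto (fun t : ℝ => Real.exp (-(s * t))) atTop (𝓝 0) :=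
      (Real.tendsto_exp_neg_atTop_nhds_zero).comp h1
    have h5 : Tendsto (fun t : ℝ => Real.exp (-(s * t)) * (Real.sin t - s * Real.cos t)) atTop
        (𝓝 0) := by
      refine squeeze_zero_norm (a := fun t => Real.exp (-(s * t)) * (1 + s)) (fun t => ?_) ?_
      · rw [norm_mul, Real.norm_eq_abs, abs_of_pos (Real.exp_pos _)]
        gcongr
        rw [Real.norm_eq_abs]
        have h1 := Real.abs_sin_le_one t
        have h2 := Real.abs_cos_le_one t
        calc |Real.sin t - s * Real.cos t| ≤ |Real.sin t| + |s * Real.cos t| := abs_sub _ _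
          _ ≤ 1 + s * 1 := by
            rw [abs_mul, abs_of_pos hs]; gcongr
          _ = 1 + s := by ring
      · have := h3.mul_const (1 + s)
        simpa using this
    have h4 := (h3.neg).sub (h5.const_mul (s / (s^2 + 1)))
    simpa using h4
  have hi := integral_Ioi_of_hasDerivAt_of_nonneg' hd hpos hlim
  have hint := integrableOn_Ioi_deriv_of_nonneg' hd hpos hlim
  rw [← ofReal_integral_eq_lintegral_ofReal hint
    ((ae_restrict_iff' measurableSet_Ioi).2 (Eventually.of_forall hpos)), hi]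
  congr 1
  simp
  field_simp
  ring

lemma lint : ∫⁻ t in Ioi (0:ℝ), ENNReal.ofReal ((1 - Real.cos t) / t^2)
    = ENNReal.ofReal (Real.pi / 2) := by
  have h1 : ∫⁻ t in Ioi (0:ℝ), ENNReal.ofReal ((1 - Real.cos t) / t^2) =
      ∫⁻ t in Ioi (0:ℝ), ∫⁻ s in Ioi (0:ℝ),
        ENNReal.ofReal (s * Real.exp (-(s * t)) * (1 - Real.cos t)) := by
    apply setLIntegral_congr_fun measurableSet_Ioi
    intro t ht
    exact (inner_s ht).symm
  rw [h1, lintegral_lintegral_swap]
  · have h2 : ∫⁻ s in Ioi (0:ℝ), ∫⁻ t in Ioi (0:ℝ),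
        ENNReal.ofReal (s * Real.exp (-(s * t)) * (1 - Real.cos t)) =
        ∫⁻ s in Ioi (0:ℝ), ENNReal.ofReal ((1 + s^2)⁻¹) := by
      apply setLIntegral_congr_fun measurableSet_Ioi
      intro s hs
      exact inner_t hs
    rw [h2, ← ofReal_integral_eq_lintegral_ofReal]
    · rw [integral_Ioi_inv_one_add_sq]; simp
    · exact (integrable_inv_one_add_sq).integrableOn
    · exact Eventually.of_forall fun s => by positivity
  · apply Measurable.aemeasurable
    simp only [Function.uncurry_def]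
    fun_prop

lemma intOn : IntegrableOn (fun t : ℝ => (1 - Real.cos t) / t^2) (Ioi 0) := by
  have hm : Measurable (fun t : ℝ => (1 - Real.cos t) / t^2) := by fun_prop
  refine ⟨hm.aestronglyMeasurable, ?_⟩
  rw [hasFiniteIntegral_iff_ofReal]
  · rw [lint]; exact ENNReal.ofReal_lt_top
  · refine Eventually.of_forall fun t => ?_
    have hc : 0 ≤ 1 - Real.cos t := by linarith [Real.cos_le_one t]
    positivity

lemma integral_cos : ∫ t in Ioi (0:ℝ), (1 - Real.cos t) / t^2 = Real.pi / 2 := by
  have hm : Measurable (fun t : ℝ => (1 - Real.cos t) / t^2) := by fun_prop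
  rw [integral_eq_lintegral_of_nonneg_ae, lint, ENNReal.toReal_ofReal (by positivity)]
  · refine Eventually.of_forall fun t => ?_
    have hc : 0 ≤ 1 - Real.cos t := by linarith [Real.cos_le_one t]
    positivity
  · exact hm.aestronglyMeasurable

end Pool.Agent.H312.NearOne
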