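import Pool.Agent.H312.NearOne.A

open Set Filter Topology MeasureTheory
open scoped ENNReal

namespace Pool.Agent.H312.NearOne

lemma P_nonneg (t : ℝ) : 0 ≤ (1 - Real.cos t) / t^2 := by
  have hc : 0 ≤ 1 - Real.cos t := by linarith [Real.cos_le_one t]
  positivity

lemma P_le_half (t : ℝ) : (1 - Real.cos t) / t^2 ≤ 1/2 := by
  rcases eq_or_ne t 0 with h | h
  · subst h; norm_num
  · rw [div_le_iff₀ (by positivity)]
    have := Real.one_sub_sq_div_two_le_cos (x := t)
    linarith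

lemma P_le_two (t : ℝ) : (1 - Real.cos t) / t^2 ≤ 2 / t^2 := by
  have := Real.neg_one_le_cos t
  gcongr
  linarith

lemma P_ii (a b : ℝ) : IntervalIntegrable (fun t : ℝ => (1 - Real.cos t) / t^2) volume a b := by
  have hm : Measurable (fun t : ℝ => (1 - Real.cos t) / t^2) := by fun_prop
  refine (intervalIntegrable_const (c := (1/2:ℝ))).mono_fun hm.aestronglyMeasurable ?_
  refine Eventually.of_forall fun t => ?_
  simp only
  rw [Real.norm_eq_abs, abs_of_nonneg (P_nonneg t), Real.norm_eq_abs, abs_of_pos (by norm_num)]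
  exact P_le_half t

lemma P_Ioi {b : ℝ} (hb : 0 < b) : ∫ t in Ioi b, (1 - Real.cos t) / t^2 ≤ 2 / b := by
  have h1 : ∫ t in Ioi b, (t:ℝ)^(-2:ℝ) = 1 / b := by
    rw [integral_Ioi_rpow_of_lt (by norm_num) hb]
    norm_num
    rw [Real.rpow_neg_one]
  have h2 : IntegrableOn (fun t : ℝ => 2 * t^(-2:ℝ)) (Ioi b) :=
    (integrableOn_Ioi_rpow_of_lt (by norm_num) hb).const_mul 2
  have h3 : ∫ t in Ioi b, (1 - Real.cos t) / t^2 ≤ ∫ t in Ioi b, 2 * (t:ℝ)^(-2:ℝ) := by
    apply setIntegral_mono_on (intOn.mono_set (Ioi_subset_Ioi hb.le)) h2 measurableSet_Ioi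
    intro t ht
    have ht' : 0 < t := lt_trans hb ht
    have : (t:ℝ)^(-2:ℝ) = 1 / t^2 := by
      rw [Real.rpow_neg ht'.le]; norm_num
    rw [this]
    have := P_le_two t
    calc _ ≤ 2 / t^2 := this
      _ = _ := by ring
  rw [integral_const_mul, h1] at h3
  calc _ ≤ _ := h3
    _ = _ := by ring

lemma P_lower {a b : ℝ} (ha : 0 ≤ a) (hb : 0 < b) :
    Real.pi / 2 - a / 2 - 2 / b ≤ ∫ t in a..b, (1 - Real.cos t) / t^2 := by
  have h1 : (∫ t in (0:ℝ)..a, (1 - Real.cos t) / t^2) + ∫ t in a..b, (1 - Real.cos t) / t^2 =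
      ∫ t in (0:ℝ)..b, (1 - Real.cos t) / t^2 :=
    intervalIntegral.integral_add_adjacent_intervals (P_ii _ _) (P_ii _ _)
  have h2 : (∫ t in (0:ℝ)..b, (1 - Real.cos t) / t^2) + ∫ t in Ioi b, (1 - Real.cos t) / t^2 =
      Real.pi / 2 := by
    rw [← integral_cos]
    exact intervalIntegral.integral_interval_add_Ioi intOn (intOn.mono_set (Ioi_subset_Ioi hb.le))
  have h3 := P_Ioi hb
  have h4 : ∫ t in (0:ℝ)..a, (1 - Real.cos t) / t^2 ≤ ∫ t in (0:ℝ)..a, (1/2:ℝ) := by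
    apply intervalIntegral.integral_mono_on ha (P_ii _ _) intervalIntegrable_const
    intro t _
    exact P_le_half t
  rw [intervalIntegral.integral_const, smul_eq_mul] at h4
  linarith

lemma P_upper {b : ℝ} (hb : 0 ≤ b) : ∫ t in (0:ℝ)..b, (1 - Real.cos t) / t^2 ≤ Real.pi / 2 := by
  have h2 : (∫ t in (0:ℝ)..b, (1 - Real.cos t) / t^2) + ∫ t in Ioi b, (1 - Real.cos t) / t^2 =
      Real.pi / 2 := by
    rw [← integral_cos]
    exact intervalIntegral.integral_interval_add_Ioi intOn (intOn.mono_set (Ioi_subset_Ioi hb))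
  have h3 : 0 ≤ ∫ t in Ioi b, (1 - Real.cos t) / t^2 :=
    integral_nonneg fun t => P_nonneg t
  linarith

/-- the integral over `[1,L]` in the test density -/
lemma R_lower {L y : ℝ} (hL : 1 ≤ L) (hy : 0 < y) :
    y * (Real.pi / 2) - y^2 / 2 - 2 / L ≤ ∫ σ in (1:ℝ)..L, (1 - Real.cos (σ * y)) / σ^2 := by
  have h1 : ∫ σ in (1:ℝ)..L, (1 - Real.cos (σ * y)) / (σ * y)^2 =
      y⁻¹ • ∫ t in (1 * y)..(L * y), (1 - Real.cos t) / t^2 :=
    intervalIntegral.integral_comp_mul_right (fun t => (1 - Real.cos t) / t^2) hy.ne'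
  have h2 : ∫ σ in (1:ℝ)..L, (1 - Real.cos (σ * y)) / σ^2 =
      y^2 * ∫ σ in (1:ℝ)..L, (1 - Real.cos (σ * y)) / (σ * y)^2 := by
    rw [← intervalIntegral.integral_const_mul]
    congr 1
    funext σ
    rw [mul_pow]
    rcases eq_or_ne σ 0 with h | h
    · subst h; simp
    · field_simp
  rw [h2, h1, smul_eq_mul]
  have h3 := P_lower (a := 1 * y) (b := L * y) (by linarith) (by positivity)
  have h4 : y^2 * (y⁻¹ * ∫ t in (1 * y)..(L * y), (1 - Real.cos t) / t^2) =
      y * ∫ t in (1 * y)..(L * y), (1 - Real.cos t) / t^2 := by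
    field_simp
  rw [h4]
  calc y * (Real.pi / 2) - y^2 / 2 - 2 / L = y * (Real.pi / 2 - 1 * y / 2 - 2 / (L * y)) := by
        field_simp
    _ ≤ _ := by gcongr

/-- `S y = ∫_0^1 (1 - cos (σ y)) dσ`. -/
noncomputable def S (y : ℝ) : ℝ := ∫ σ in (0:ℝ)..1, (1 - Real.cos (σ * y))

lemma S_nonneg (y : ℝ) : 0 ≤ S y := by
  apply intervalIntegral.integral_nonneg zero_le_one
  intro σ _
  linarith [Real.cos_le_one (σ * y)]

lemma S_le_two (y : ℝ) : S y ≤ 2 := by
  have h : S y ≤ ∫ σ in (0:ℝ)..1, (2:ℝ) := by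
    apply intervalIntegral.integral_mono_on zero_le_one
    · exact Continuous.intervalIntegrable (by fun_prop) _ _
    · exact intervalIntegrable_const
    · intro σ _
      linarith [Real.neg_one_le_cos (σ * y)]
  rw [intervalIntegral.integral_const, smul_eq_mul] at h
  linarith

lemma S_ge_quad {y : ℝ} (hy0 : 0 ≤ y) (hy : y ≤ 2) : y^2 / 20 ≤ S y := by
  have hpi := Real.pi_gt_three
  have hpi2 := Real.pi_lt_d2
  have h : ∫ σ in (0:ℝ)..1, 2 / Real.pi^2 * (σ * y)^2 ≤ S y := by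
    apply intervalIntegral.integral_mono_on zero_le_one
    · exact Continuous.intervalIntegrable (by fun_prop) _ _
    · exact Continuous.intervalIntegrable (by fun_prop) _ _
    · intro σ hσ
      have h1 : |σ * y| ≤ Real.pi := by
        rw [abs_of_nonneg (mul_nonneg hσ.1 hy0)]
        nlinarith [hσ.1, hσ.2]
      have := Real.cos_le_one_sub_mul_cos_sq h1
      linarith
  have h2 : ∫ σ in (0:ℝ)..1, 2 / Real.pi^2 * (σ * y)^2 = 2 / Real.pi^2 * y^2 / 3 := by
    have : ∀ σ : ℝ, 2 / Real.pi^2 * (σ * y)^2 = (2 / Real.pi^2 * y^2) * σ^2 := by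
      intro σ; ring
    simp_rw [this]
    rw [intervalIntegral.integral_const_mul, integral_pow]
    norm_num
    ring
  rw [h2] at h
  refine le_trans ?_ h
  have h3 : Real.pi^2 ≤ 10 := by nlinarith
  have h4 : (2:ℝ) / 10 ≤ 2 / Real.pi^2 := by gcongr
  nlinarith [sq_nonneg y]

lemma S_ge_half {y : ℝ} (hy : 2 ≤ y) : 1/2 ≤ S y := by
  have h1 : ∫ σ in (0:ℝ)..1, Real.cos (σ * y) = y⁻¹ • ∫ t in (0 * y)..(1 * y), Real.cos t :=
    intervalIntegral.integral_comp_mul_right (fun t => Real.cos t) (by linarith)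
  have h2 : S y = 1 - y⁻¹ * Real.sin y := by
    unfold S
    rw [intervalIntegral.integral_sub (by simp)
      (Continuous.intervalIntegrable (by fun_prop) _ _), h1]
    simp
  rw [h2]
  have h3 : y⁻¹ * Real.sin y ≤ y⁻¹ * 1 := by
    have : 0 < y⁻¹ := by positivity
    gcongr
    exact Real.sin_le_one y
  have h4 : y⁻¹ ≤ 2⁻¹ := by gcongr
  norm_num at h4 ⊢
  linarith

end Pool.Agent.H312.NearOne
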