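import Pool.Agent.H312.NearOne.B

open Set Filter Topology MeasureTheory
open scoped ENNReal

namespace Pool.Agent.H312.NearOne

lemma one_sub_cos_le {t : ℝ} (ht : 0 ≤ t) : 1 - Real.cos t ≤ t := by
  rcases le_total t 2 with h | h
  · have := Real.one_sub_sq_div_two_le_cos (x := t)
    nlinarith
  · linarith [Real.neg_one_le_cos t]

lemma sub_sin_le {t : ℝ} (ht : 0 ≤ t) : t - Real.sin t ≤ t^2 / 2 := by
  have hm : MonotoneOn (fun t : ℝ => t^2 / 2 - t + Real.sin t) (Ici 0) := by
    apply monotoneOn_of_deriv_nonneg (convex_Ici 0)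
    · fun_prop
    · fun_prop
    · intro x hx
      rw [interior_Ici] at hx
      have hd : HasDerivAt (fun t : ℝ => t^2 / 2 - t + Real.sin t)
          ((2:ℕ) * x^(2-1) / 2 - 1 + Real.cos x) x :=
        (((hasDerivAt_pow 2 x).div_const 2).sub (hasDerivAt_id x)).add (Real.hasDerivAt_sin x)
      rw [hd.deriv]
      have := one_sub_cos_le (le_of_lt hx)
      norm_num
      linarith
  have := hm (mem_Ici.2 le_rfl) (mem_Ici.2 ht) ht
  simp at this
  linarith

lemma tay {x t : ℝ} (ht : 0 ≤ t) :
    |Real.cos (x - t) - Real.cos x - t * Real.sin x| ≤ t^2 := by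
  have h1 : Real.cos (x - t) - Real.cos x - t * Real.sin x =
      Real.cos x * (Real.cos t - 1) + Real.sin x * (Real.sin t - t) := by
    rw [Real.cos_sub]; ring
  rw [h1]
  have h2 : |Real.cos t - 1| ≤ t^2 / 2 := by
    rw [abs_le]
    constructor
    · linarith [Real.one_sub_sq_div_two_le_cos (x := t)]
    · nlinarith [Real.cos_le_one t, sq_nonneg t]
  have h3 : |Real.sin t - t| ≤ t^2 / 2 := by
    rw [abs_le]
    constructor
    · linarith [sub_sin_le ht]
    · nlinarith [Real.sin_le ht, sq_nonneg t]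
  calc _ ≤ |Real.cos x * (Real.cos t - 1)| + |Real.sin x * (Real.sin t - t)| := abs_add_le _ _
    _ = |Real.cos x| * |Real.cos t - 1| + |Real.sin x| * |Real.sin t - t| := by
        rw [abs_mul, abs_mul]
    _ ≤ 1 * (t^2 / 2) + 1 * (t^2 / 2) := by
        gcongr
        · exact Real.abs_cos_le_one x
        · exact Real.abs_sin_le_one x
    _ = t^2 := by ring

lemma cos_sub_cos_le {x t : ℝ} (ht : 0 ≤ t) : |Real.cos (x - t) - Real.cos x| ≤ t := by
  have h := Real.abs_cos_sub_cos_le (x - t) x
  have h2 : x - t - x = -t := by ring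
  rwa [h2, abs_neg, abs_of_nonneg ht] at h

/-- the majorant -/
noncomputable def Hm (L y : ℝ) : ℝ := 40 * S y + 40 / L * S (L * y) +
  2 / Real.pi * ∫ σ in (1:ℝ)..L, (1 - Real.cos (σ * y)) / σ^2

lemma R_nonneg {L : ℝ} (hL : 1 ≤ L) (y : ℝ) :
    0 ≤ ∫ σ in (1:ℝ)..L, (1 - Real.cos (σ * y)) / σ^2 := by
  apply intervalIntegral.integral_nonneg hL
  intro σ _
  have : 0 ≤ 1 - Real.cos (σ * y) := by linarith [Real.cos_le_one (σ * y)]
  positivity

lemma R_le {L : ℝ} (hL : 1 ≤ L) (y : ℝ) :
    ∫ σ in (1:ℝ)..L, (1 - Real.cos (σ * y)) / σ^2 ≤ 2 := by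
  have h0 : (0:ℝ) ∉ uIcc (1:ℝ) L := by
    rw [uIcc_of_le hL]; intro h; linarith [h.1]
  have h1 : ∫ σ in (1:ℝ)..L, (1 - Real.cos (σ * y)) / σ^2 ≤ ∫ σ in (1:ℝ)..L, 2 * (σ^2)⁻¹ := by
    apply intervalIntegral.integral_mono_on hL
    · apply ContinuousOn.intervalIntegrable
      apply ContinuousOn.div (by fun_prop) (by fun_prop)
      intro σ hσ
      have : σ ≠ 0 := fun h => h0 (h ▸ hσ)
      positivity
    · apply ContinuousOn.intervalIntegrable
      apply ContinuousOn.mul (by fun_prop)
      apply ContinuousOn.inv₀ (by fun_prop)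
      intro σ hσ
      have : σ ≠ 0 := fun h => h0 (h ▸ hσ)
      positivity
    · intro σ _
      rw [div_eq_mul_inv]
      gcongr
      linarith [Real.neg_one_le_cos (σ * y)]
  have h2 : ∫ σ in (1:ℝ)..L, 2 * (σ^2)⁻¹ = 2 * (1 - 1 / L) := by
    have hd : ∀ σ ∈ uIcc (1:ℝ) L, HasDerivAt (fun σ : ℝ => -(2 * σ⁻¹)) (2 * (σ^2)⁻¹) σ := by
      intro σ hσ
      have hne : σ ≠ 0 := fun h => h0 (h ▸ hσ)
      have := (((hasDerivAt_inv hne).const_mul 2).neg)
      refine this.congr_deriv ?_
      ring
    rw [intervalIntegral.integral_eq_sub_of_hasDerivAt hd]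
    · simp; ring
    · apply ContinuousOn.intervalIntegrable
      apply ContinuousOn.mul (by fun_prop)
      apply ContinuousOn.inv₀ (by fun_prop)
      intro σ hσ
      have : σ ≠ 0 := fun h => h0 (h ▸ hσ)
      positivity
  rw [h2] at h1
  have : 0 < 1 / L := by positivity
  linarith

lemma Hm_nonneg {L : ℝ} (hL : 1 ≤ L) (y : ℝ) : 0 ≤ Hm L y := by
  have h1 := S_nonneg y
  have h2 := S_nonneg (L * y)
  have h3 := R_nonneg hL y
  have hpi := Real.pi_pos
  unfold Hm
  positivity

lemma Hm_le {L : ℝ} (hL : 1 ≤ L) (y : ℝ) : Hm L y ≤ 162 := by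
  have h1 := S_le_two y
  have h2 := S_le_two (L * y)
  have h3 := R_le hL y
  have h4 := R_nonneg hL y
  have hpi := Real.pi_gt_three
  have h5 : 40 / L ≤ 40 := by
    rw [div_le_iff₀ (by linarith)]; linarith
  have h6 : 2 / Real.pi ≤ 1 := by
    rw [div_le_one (by linarith)]; linarith
  unfold Hm
  have h7 : 40 / L * S (L * y) ≤ 40 * 2 := by
    gcongr
    exact S_nonneg _
  have h8 : 2 / Real.pi * (∫ σ in (1:ℝ)..L, (1 - Real.cos (σ * y)) / σ^2) ≤ 1 * 2 := by
    gcongr
  linarith

lemma W_le_pos {L x y : ℝ} (hL : 1 ≤ L) (hy : 0 < y) :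
    |Real.cos (x - y) - (1 - 1 / L) * Real.cos x - 1 / L * Real.cos (x - L * y)| ≤ Hm L y := by
  have hL0 : 0 < L := by linarith
  have hS1 := S_nonneg y
  have hS2 := S_nonneg (L * y)
  have hR := R_nonneg hL y
  have hpi := Real.pi_pos
  have hpi3 := Real.pi_gt_three
  have hLy : 0 < L * y := by positivity
  rcases le_total (L * y) 2 with h1 | h1
  · -- regime (a)
    have e : Real.cos (x - y) - (1 - 1 / L) * Real.cos x - 1 / L * Real.cos (x - L * y) =
        (Real.cos (x - y) - Real.cos x - y * Real.sin x) -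
        1 / L * (Real.cos (x - L * y) - Real.cos x - (L * y) * Real.sin x) := by
      field_simp
      ring
    rw [e]
    have t1 := tay (x := x) hy.le
    have t2 := tay (x := x) hLy.le
    have hS3 := S_ge_quad hLy.le h1
    calc _ ≤ |Real.cos (x - y) - Real.cos x - y * Real.sin x| +
          |1 / L * (Real.cos (x - L * y) - Real.cos x - (L * y) * Real.sin x)| := abs_sub _ _
      _ ≤ y^2 + 1 / L * (L * y)^2 := by
          rw [abs_mul, abs_of_pos (a := 1 / L) (by positivity)]
          gcongr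
      _ = y^2 + L * y^2 := by field_simp
      _ ≤ 2 * (L * y^2) := by nlinarith [sq_nonneg y]
      _ = 40 / L * ((L * y)^2 / 20) := by field_simp; ring
      _ ≤ 40 / L * S (L * y) := by gcongr
      _ ≤ Hm L y := by
          unfold Hm
          have : 0 ≤ 2 / Real.pi * ∫ σ in (1:ℝ)..L, (1 - Real.cos (σ * y)) / σ^2 := by positivity
          linarith
  · rcases le_total y 2 with h2 | h2
    · -- regime (b)
      have e : Real.cos (x - y) - (1 - 1 / L) * Real.cos x - 1 / L * Real.cos (x - L * y) =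
        (Real.cos (x - y) - Real.cos x) +
        1 / L * (Real.cos x - Real.cos (x - L * y)) := by
        field_simp
        ring
      rw [e]
      have t1 := cos_sub_cos_le (x := x) hy.le
      have t2 : |Real.cos x - Real.cos (x - L * y)| ≤ 2 := by
        have a1 := Real.abs_cos_le_one x
        have a2 := Real.abs_cos_le_one (x - L * y)
        rw [abs_le] at *
        constructor <;> linarith
      have hS3 := S_ge_half h1
      have hS4 := S_ge_quad hy.le h2
      have hR2 := R_lower hL hy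
      have hR3 : 2 / Real.pi * (y * (Real.pi / 2) - y^2 / 2 - 2 / L) ≤
          2 / Real.pi * ∫ σ in (1:ℝ)..L, (1 - Real.cos (σ * y)) / σ^2 := by gcongr
      have hR4 : 2 / Real.pi * (y * (Real.pi / 2) - y^2 / 2 - 2 / L) =
          y - (1 / Real.pi) * y^2 - 4 / Real.pi * (1 / L) := by
        field_simp
        ring
      have hp1 : 1 / Real.pi ≤ 1 := by rw [div_le_one hpi]; linarith
      have hp2 : 4 / Real.pi ≤ 2 := by rw [div_le_iff₀ hpi]; linarith
      calc _ ≤ |Real.cos (x - y) - Real.cos x| +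
            |1 / L * (Real.cos x - Real.cos (x - L * y))| := abs_add_le _ _
        _ ≤ y + 1 / L * 2 := by
            rw [abs_mul, abs_of_pos (a := 1 / L) (by positivity)]
            gcongr
        _ ≤ 40 * (y^2 / 20) + 40 / L * (1 / 2) +
            (y - (1 / Real.pi) * y^2 - 4 / Real.pi * (1 / L)) := by
            have b1 : (1 / Real.pi) * y^2 ≤ 1 * y^2 := by gcongr
            have b2 : 4 / Real.pi * (1 / L) ≤ 2 * (1 / L) := by gcongr
            have b3 : 40 / L * (1 / 2) = 20 * (1 / L) := by ring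
            have b4 : 0 < 1 / L := by positivity
            nlinarith [sq_nonneg y]
        _ ≤ Hm L y := by
            unfold Hm
            have b5 : 40 / L * (1 / 2) ≤ 40 / L * S (L * y) := by gcongr
            linarith
    · -- regime (c)
      have hS3 := S_ge_half h2
      have t : |Real.cos (x - y) - (1 - 1 / L) * Real.cos x - 1 / L * Real.cos (x - L * y)| ≤ 3 := by
        have a0 : 0 < 1 / L := by positivity
        have a0' : 1 / L ≤ 1 := by rw [div_le_one hL0]; exact hL
        have a1 := Real.abs_cos_le_one x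
        have a2 := Real.abs_cos_le_one (x - L * y)
        have a3 := Real.abs_cos_le_one (x - y)
        have a4 : |(1 - 1 / L) * Real.cos x| ≤ 1 := by
          rw [abs_mul, abs_of_nonneg (a := 1 - 1 / L) (by linarith)]
          nlinarith [abs_nonneg (Real.cos x)]
        have a5 : |1 / L * Real.cos (x - L * y)| ≤ 1 := by
          rw [abs_mul, abs_of_nonneg (a := 1 / L) (by linarith)]
          nlinarith [abs_nonneg (Real.cos (x - L * y))]
        rw [abs_le] at *
        constructor <;> linarith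
      unfold Hm
      have b1 : 0 ≤ 40 / L * S (L * y) := by positivity
      have b2 : 0 ≤ 2 / Real.pi * ∫ σ in (1:ℝ)..L, (1 - Real.cos (σ * y)) / σ^2 := by positivity
      linarith

lemma S_neg (y : ℝ) : S (-y) = S y := by
  unfold S
  simp

lemma Hm_neg (L y : ℝ) : Hm L (-y) = Hm L y := by
  unfold Hm
  rw [S_neg, mul_neg, S_neg]
  simp

lemma W_le {L x y : ℝ} (hL : 1 ≤ L) :
    |Real.cos (x - y) - (1 - 1 / L) * Real.cos x - 1 / L * Real.cos (x - L * y)| ≤ Hm L y := by
  rcases lt_trichotomy y 0 with h | h | h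
  · have := W_le_pos (L := L) (x := -x) (y := -y) hL (by linarith)
    rw [Hm_neg] at this
    refine le_trans (le_of_eq ?_) this
    have e1 : -x - -y = -(x - y) := by ring
    have e2 : -x - L * -y = -(x - L * y) := by ring
    rw [e1, e2, Real.cos_neg, Real.cos_neg, Real.cos_neg]
  · subst h
    refine le_trans (le_of_eq ?_) (Hm_nonneg hL 0)
    simp only [sub_zero, mul_zero]
    rw [abs_eq_zero]
    ring
  · exact W_le_pos hL h

end Pool.Agent.H312.NearOne
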