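import Pool.Agent.H312.NearOne.C
import Pool.Graph.R_seed8.B595.LB

open Set Filter Topology MeasureTheory
open scoped ENNReal

namespace Pool.Agent.H312.NearOne

lemma fub {ν : Measure ℝ} [IsFiniteMeasure ν] {g : ℝ → ℝ} (hg : Integrable g ν) {α : ℝ}
    (hcos : ∀ s ∈ Icc (0:ℝ) 1, ∫ x, g x * Real.cos (x * s) ∂ν = (1 - s) ^ α)
    {a b c : ℝ} (hab : a ≤ b) {w : ℝ → ℝ} (hw : ContinuousOn w (Icc a b))
    (hc : ∀ σ ∈ Icc a b, σ * c ∈ Icc (0:ℝ) 1) :
    Integrable (fun x => g x * ∫ σ in a..b, (1 - Real.cos (σ * (c * x))) * w σ) ν ∧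
    ∫ x, g x * (∫ σ in a..b, (1 - Real.cos (σ * (c * x))) * w σ) ∂ν =
      ∫ σ in a..b, (1 - (1 - σ * c) ^ α) * w σ := by
  have h0 : ∫ x, g x ∂ν = 1 := by
    have := hcos 0 ⟨le_rfl, zero_le_one⟩
    simpa using this
  obtain ⟨M, hM⟩ := isCompact_Icc.exists_bound_of_continuousOn hw
  have hwi : Integrable w (volume.restrict (Ioc a b)) := by
    have : IntegrableOn w (Icc a b) := hw.integrableOn_Icc
    exact this.mono_set Ioc_subset_Icc_self
  have hprod : Integrable (fun p : ℝ × ℝ => g p.1 * w p.2) (ν.prod (volume.restrict (Ioc a b))) :=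
    hg.mul_prod hwi
  have hprod2 : Integrable (fun p : ℝ × ℝ => (1 - Real.cos (p.2 * (c * p.1))) * (g p.1 * w p.2))
      (ν.prod (volume.restrict (Ioc a b))) := by
    refine hprod.bdd_mul (c := 2) ?_ ?_
    · exact (Continuous.aestronglyMeasurable (by fun_prop))
    · refine Eventually.of_forall fun p => ?_
      rw [Real.norm_eq_abs, abs_le]
      constructor <;> linarith [Real.cos_le_one (p.2 * (c * p.1)),
        Real.neg_one_le_cos (p.2 * (c * p.1))]
  have e1 : ∀ x, g x * (∫ σ in a..b, (1 - Real.cos (σ * (c * x))) * w σ) =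
      ∫ σ in Ioc a b, (1 - Real.cos (σ * (c * x))) * (g x * w σ) := by
    intro x
    rw [intervalIntegral.integral_of_le hab, ← integral_const_mul]
    congr 1
    funext σ
    ring
  constructor
  · simp_rw [e1]
    exact hprod2.integral_prod_left
  · simp_rw [e1]
    rw [integral_integral_swap hprod2, intervalIntegral.integral_of_le hab]
    apply setIntegral_congr_fun measurableSet_Ioc
    intro σ hσ
    have hσ' : σ ∈ Icc a b := Ioc_subset_Icc_self hσ
    have h2 := hcos (σ * c) (hc σ hσ')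
    have h3 : ∀ x, (1 - Real.cos (σ * (c * x))) * (g x * w σ) =
        w σ * (g x - g x * Real.cos (x * (σ * c))) := by
      intro x
      have : σ * (c * x) = x * (σ * c) := by ring
      rw [this]; ring
    simp_rw [h3]
    rw [integral_const_mul, integral_sub hg, h0, h2]
    · ring
    · have := hg.bdd_mul (c := 1) (f := fun x => Real.cos (x * (σ * c)))
        (Continuous.aestronglyMeasurable (by fun_prop)) (Eventually.of_forall fun x => ?_)
      · refine this.congr (Eventually.of_forall fun x => ?_)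
        simp only
        ring
      · rw [Real.norm_eq_abs]; exact Real.abs_cos_le_one _

lemma one_sub_rpow_le {α s : ℝ} (hα : 0 < α) (hα1 : α ≤ 1) (hs0 : 0 ≤ s) (hs1 : s ≤ 1) :
    1 - (1 - s) ^ α ≤ s := by
  have h := Real.rpow_le_rpow_of_exponent_ge' (x := 1 - s) (by linarith) (by linarith) hα.le hα1
  rw [Real.rpow_one] at h
  linarith

lemma int7 {ν : Measure ℝ} {f0 f1 f2 f3 f4 f5 f6 : ℝ → ℝ} {c1 c2 c3 c4 c5 c6 : ℝ}
    (h0 : Integrable f0 ν) (h1 : Integrable f1 ν) (h2 : Integrable f2 ν) (h3 : Integrable f3 ν)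
    (h4 : Integrable f4 ν) (h5 : Integrable f5 ν) (h6 : Integrable f6 ν) :
    ∫ x, (f0 x + c1 * f1 x + c2 * f2 x + c3 * f3 x + c4 * f4 x + c5 * f5 x + c6 * f6 x) ∂ν =
      ∫ x, f0 x ∂ν + c1 * ∫ x, f1 x ∂ν + c2 * ∫ x, f2 x ∂ν + c3 * ∫ x, f3 x ∂ν +
        c4 * ∫ x, f4 x ∂ν + c5 * ∫ x, f5 x ∂ν + c6 * ∫ x, f6 x ∂ν := by
  have j1 := h1.const_mul c1
  have j2 := h2.const_mul c2
  have j3 := h3.const_mul c3
  have j4 := h4.const_mul c4
  have j5 := h5.const_mul c5
  have j6 := h6.const_mul c6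
  have s1 : Integrable (fun x => f0 x + c1 * f1 x) ν := h0.add j1
  have s2 : Integrable (fun x => f0 x + c1 * f1 x + c2 * f2 x) ν := s1.add j2
  have s3 : Integrable (fun x => f0 x + c1 * f1 x + c2 * f2 x + c3 * f3 x) ν := s2.add j3
  have s4 : Integrable (fun x => f0 x + c1 * f1 x + c2 * f2 x + c3 * f3 x + c4 * f4 x) ν :=
    s3.add j4
  have s5 : Integrable (fun x => f0 x + c1 * f1 x + c2 * f2 x + c3 * f3 x + c4 * f4 x
    + c5 * f5 x) ν := s4.add j5
  rw [integral_add s5 j6, integral_add s4 j5, integral_add s3 j4, integral_add s2 j3,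
    integral_add s1 j2, integral_add h0 j1]
  simp_rw [integral_const_mul]

theorem V_lower {ν : Measure ℝ} [IsFiniteMeasure ν] {f : ℝ → ℂ} (hf : Integrable f ν) {α : ℝ}
    (hα : 0 < α) (hα1 : α ≤ 1)
    (hrep : ∀ ξ ∈ Icc (-1:ℝ) 1, ∫ x, Complex.exp (-(Complex.I * x * ξ)) * f x ∂ν
      = (((1 - |ξ|) ^ α : ℝ) : ℂ)) {h L : ℝ} (hh : 0 < h) (hL : 1 ≤ L) (hLh : L * h ≤ 1) :
    1 + (1/200) * (h ^ α * (1 - L ^ (α - 1)) - h * (40 + 2 / Real.pi * Real.log L))
      ≤ ∫ x, ‖f x‖ ∂ν := by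
  have hL0 : 0 < L := by linarith
  have hpi := Real.pi_pos
  have hcos' : ∀ s ∈ Icc (0:ℝ) 1, ∫ x, (f x).re * Real.cos (x * s) ∂ν = (1 - s) ^ α := by
    intro s hs
    have := B595.real_part hf hrep (s := 1 - s) ⟨by linarith [hs.2], by linarith [hs.1]⟩
    simpa using this
  have hgi : Integrable (fun x => (f x).re) ν := hf.re
  have hLh0 : 0 < L * h := by positivity
  have hh1 : h ≤ 1 := by nlinarith
  -- the cosines
  have hci : ∀ s : ℝ, Integrable (fun x => (f x).re * Real.cos (x * s)) ν := by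
    intro s
    have := hgi.bdd_mul (c := 1) (f := fun x => Real.cos (x * s))
        (Continuous.aestronglyMeasurable (by fun_prop)) (Eventually.of_forall fun x => ?_)
    · refine this.congr (Eventually.of_forall fun x => ?_)
      simp only
      ring
    · rw [Real.norm_eq_abs]; exact Real.abs_cos_le_one _
  obtain ⟨i1, v1⟩ := fub hgi hcos' (a := 0) (b := 1) (c := h) zero_le_one
    (w := fun _ => 1) continuousOn_const (fun σ hσ => ⟨mul_nonneg hσ.1 hh.le, by nlinarith [hσ.1, hσ.2]⟩)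
  obtain ⟨i2, v2⟩ := fub hgi hcos' (a := 0) (b := 1) (c := L * h) zero_le_one
    (w := fun _ => 1) continuousOn_const (fun σ hσ => ⟨mul_nonneg hσ.1 hLh0.le, by nlinarith [hσ.1, hσ.2]⟩)
  have hwc : ContinuousOn (fun σ : ℝ => (σ^2)⁻¹) (Icc 1 L) := by
    apply ContinuousOn.inv₀ (by fun_prop)
    intro σ hσ
    have : σ ≠ 0 := by linarith [hσ.1]
    positivity
  obtain ⟨i3, v3⟩ := fub hgi hcos' (a := 1) (b := L) (c := h) hL
    (w := fun σ => (σ^2)⁻¹) hwc
    (fun σ hσ => ⟨mul_nonneg (by linarith [hσ.1]) hh.le, by nlinarith [hσ.1, hσ.2]⟩)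
  -- bounds of the values
  have b1 : ∫ σ in (0:ℝ)..1, (1 - (1 - σ * h) ^ α) * 1 ≤ h / 2 := by
    have e : ∫ σ in (0:ℝ)..1, σ * h = h / 2 := by
      rw [intervalIntegral.integral_mul_const, integral_id]; norm_num; ring
    rw [← e]
    apply intervalIntegral.integral_mono_on zero_le_one
    · apply ContinuousOn.intervalIntegrable
      apply ContinuousOn.mul _ continuousOn_const
      apply ContinuousOn.sub continuousOn_const
      apply ContinuousOn.rpow_const (by fun_prop)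
      intro σ _; right; exact hα.le
    · exact Continuous.intervalIntegrable (by fun_prop) _ _
    · intro σ hσ
      rw [mul_one]
      exact one_sub_rpow_le hα hα1 (mul_nonneg hσ.1 hh.le) (by nlinarith [hσ.1, hσ.2])
  have b2 : ∫ σ in (0:ℝ)..1, (1 - (1 - σ * (L * h)) ^ α) * 1 ≤ L * h / 2 := by
    have e : ∫ σ in (0:ℝ)..1, σ * (L * h) = L * h / 2 := by
      rw [intervalIntegral.integral_mul_const, integral_id]; norm_num; ring
    rw [← e]
    apply intervalIntegral.integral_mono_on zero_le_one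
    · apply ContinuousOn.intervalIntegrable
      apply ContinuousOn.mul _ continuousOn_const
      apply ContinuousOn.sub continuousOn_const
      apply ContinuousOn.rpow_const (by fun_prop)
      intro σ _; right; exact hα.le
    · exact Continuous.intervalIntegrable (by fun_prop) _ _
    · intro σ hσ
      rw [mul_one]
      exact one_sub_rpow_le hα hα1 (mul_nonneg hσ.1 hLh0.le) (by nlinarith [hσ.1, hσ.2])
  have b3 : ∫ σ in (1:ℝ)..L, (1 - (1 - σ * h) ^ α) * (σ^2)⁻¹ ≤ h * Real.log L := by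
    have e : ∫ σ in (1:ℝ)..L, h * σ⁻¹ = h * Real.log L := by
      rw [intervalIntegral.integral_const_mul, integral_inv_of_pos one_pos hL0, div_one]
    rw [← e]
    apply intervalIntegral.integral_mono_on hL
    · apply ContinuousOn.intervalIntegrable
      rw [uIcc_of_le hL]
      apply ContinuousOn.mul _ hwc
      apply ContinuousOn.sub continuousOn_const
      apply ContinuousOn.rpow_const (by fun_prop)
      intro σ _; right; exact hα.le
    · apply ContinuousOn.intervalIntegrable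
      rw [uIcc_of_le hL]
      apply ContinuousOn.mul continuousOn_const
      apply ContinuousOn.inv₀ continuousOn_id
      intro σ hσ
      have : σ ≠ 0 := by linarith [hσ.1]
      exact this
    · intro σ hσ
      have hσ0 : 0 < σ := by linarith [hσ.1]
      have := one_sub_rpow_le hα hα1 (s := σ * h) (by positivity) (by nlinarith [hσ.1, hσ.2])
      calc (1 - (1 - σ * h) ^ α) * (σ^2)⁻¹ ≤ (σ * h) * (σ^2)⁻¹ := by gcongr
        _ = h * σ⁻¹ := by field_simp
  -- the test function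
  have hFle : ∀ x : ℝ, |1 - (1/200) * (Hm L (h * x) - (Real.cos (x - h * x) -
      (1 - 1 / L) * Real.cos x - 1 / L * Real.cos (x - L * (h * x))))| ≤ 1 := by
    intro x
    have w := W_le (L := L) (x := x) (y := h * x) hL
    have u := Hm_le hL (h * x)
    rw [abs_le] at w ⊢
    constructor <;> linarith [w.1, w.2]
  have hS : ∀ y, S y = ∫ σ in (0:ℝ)..1, (1 - Real.cos (σ * y)) * 1 := by
    intro y
    unfold S
    simp_rw [mul_one]
  have hexp : ∀ x : ℝ, (f x).re * (1 - (1/200) * (Hm L (h * x) - (Real.cos (x - h * x) -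
      (1 - 1 / L) * Real.cos x - 1 / L * Real.cos (x - L * (h * x))))) =
      (f x).re + (-(1/5)) * ((f x).re * ∫ σ in (0:ℝ)..1, (1 - Real.cos (σ * (h * x))) * 1) +
      (-(1/5) / L) * ((f x).re * ∫ σ in (0:ℝ)..1, (1 - Real.cos (σ * (L * h * x))) * 1) +
      (-(1/100) / Real.pi) * ((f x).re * ∫ σ in (1:ℝ)..L, (1 - Real.cos (σ * (h * x))) * (σ^2)⁻¹) +
      (1/200) * ((f x).re * Real.cos (x * (1 - h))) +
      (-(1/200) * (1 - 1 / L)) * ((f x).re * Real.cos (x * 1)) +
      (-(1/200) * (1 / L)) * ((f x).re * Real.cos (x * (1 - L * h))) := by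
    intro x
    have e1 : x - h * x = x * (1 - h) := by ring
    have e2 : x - L * (h * x) = x * (1 - L * h) := by ring
    unfold Hm
    rw [e1, e2, hS (h * x), hS (L * (h * x)), mul_one x, ← mul_assoc L h x]
    simp_rw [div_eq_mul_inv]
    ring
  have hval : ∫ x, (f x).re * (1 - (1/200) * (Hm L (h * x) - (Real.cos (x - h * x) -
      (1 - 1 / L) * Real.cos x - 1 / L * Real.cos (x - L * (h * x))))) ∂ν =
      1 + (-(1/5)) * (∫ σ in (0:ℝ)..1, (1 - (1 - σ * h) ^ α) * 1) +
      (-(1/5) / L) * (∫ σ in (0:ℝ)..1, (1 - (1 - σ * (L * h)) ^ α) * 1) +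
      (-(1/100) / Real.pi) * (∫ σ in (1:ℝ)..L, (1 - (1 - σ * h) ^ α) * (σ^2)⁻¹) +
      (1/200) * (h ^ α) +
      (-(1/200) * (1 - 1 / L)) * 0 +
      (-(1/200) * (1 / L)) * ((L * h) ^ α) := by
    simp_rw [hexp]
    rw [int7 hgi i1 i2 i3 (hci (1 - h)) (hci 1) (hci (1 - L * h))]
    rw [v1, v2, v3, hcos' (1 - h) ⟨by linarith, by linarith⟩, hcos' 1 ⟨zero_le_one, le_rfl⟩,
      hcos' (1 - L * h) ⟨by linarith, by linarith⟩]
    have k0 : ∫ x, (f x).re ∂ν = 1 := by
      have := hcos' 0 ⟨le_rfl, zero_le_one⟩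
      simpa using this
    rw [k0]
    have k1 : (1 - (1 - h)) = h := by ring
    have k2 : (1 - (1 - L * h)) = L * h := by ring
    have k3 : ((1:ℝ) - 1) ^ α = 0 := by rw [sub_self, Real.zero_rpow hα.ne']
    rw [k1, k2, k3]
  have hupper : ∫ x, (f x).re * (1 - (1/200) * (Hm L (h * x) - (Real.cos (x - h * x) -
      (1 - 1 / L) * Real.cos x - 1 / L * Real.cos (x - L * (h * x))))) ∂ν ≤ ∫ x, ‖f x‖ ∂ν := by
    refine le_trans (le_abs_self _) ?_
    rw [← Real.norm_eq_abs]
    apply norm_integral_le_of_norm_le hf.norm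
    refine Eventually.of_forall fun x => ?_
    rw [norm_mul, Real.norm_eq_abs, Real.norm_eq_abs]
    calc |(f x).re| * _ ≤ ‖f x‖ * 1 := by
          gcongr
          · exact Complex.abs_re_le_norm _
          · exact hFle x
      _ = ‖f x‖ := mul_one _
  rw [hval] at hupper
  refine le_trans ?_ hupper
  have k4 : 1 / L * (L * h) ^ α = h ^ α * L ^ (α - 1) := by
    rw [Real.mul_rpow hL0.le hh.le, Real.rpow_sub_one hL0.ne']
    ring
  have k5 : (-(1/200) * (1 / L)) * ((L * h) ^ α) = -(1/200) * (h ^ α * L ^ (α - 1)) := by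
    rw [← k4]; ring
  rw [k5]
  have c1 : (1/5) * (∫ σ in (0:ℝ)..1, (1 - (1 - σ * h) ^ α) * 1) ≤ (1/5) * (h / 2) := by gcongr
  have c2 : (1/5) / L * (∫ σ in (0:ℝ)..1, (1 - (1 - σ * (L * h)) ^ α) * 1) ≤
      (1/5) / L * (L * h / 2) := by gcongr
  have c3 : (1/100) / Real.pi * (∫ σ in (1:ℝ)..L, (1 - (1 - σ * h) ^ α) * (σ^2)⁻¹) ≤
      (1/100) / Real.pi * (h * Real.log L) := by gcongr
  have c4 : (1/5) / L * (L * h / 2) = (1/5) * (h / 2) := by field_simp
  have c5 : (1/100) / Real.pi * (h * Real.log L) = (1/200) * (h * (2 / Real.pi * Real.log L)) := by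
    field_simp; ring
  rw [c4] at c2
  rw [c5] at c3
  simp only [neg_div, neg_mul, mul_zero]
  linarith

end Pool.Agent.H312.NearOne
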