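import Pool.Agent.H312.NearOne.B

open Set Filter Topology MeasureTheory
open scoped ENNReal

namespace Pool.Agent.H312.NearOne

/-- the cosine coefficient -/
noncomputable def cc (α ω : ℝ) : ℝ := ∫ ξ in (0:ℝ)..1, (1 - ξ) ^ α * Real.cos (ω * ξ)

lemma cc_neg (α ω : ℝ) : cc α (-ω) = cc α ω := by
  unfold cc
  simp

lemma cc_cont {α : ℝ} (hα : 0 ≤ α) : Continuous (cc α) := by
  unfold cc
  apply intervalIntegral.continuous_parametric_intervalIntegral_of_continuous'
  have h : Continuous (fun x : ℝ => x ^ α) := Real.continuous_rpow_const hα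
  simp only [Function.uncurry_def]
  apply Continuous.mul
  · exact h.comp (by fun_prop)
  · fun_prop

/-- `t^(α-1) (1 - cos t)/t²` -/
noncomputable def R (α t : ℝ) : ℝ := t ^ (α - 1) * ((1 - Real.cos t) / t^2)

lemma rpow_ii {α : ℝ} (hα : 0 < α) (a b : ℝ) :
    IntervalIntegrable (fun t : ℝ => t ^ (α - 1)) volume a b :=
  intervalIntegral.intervalIntegrable_rpow' (by linarith)

lemma rb_ii {α : ℝ} (hα : 0 < α) {B : ℝ → ℝ} (hB : Measurable B) {M : ℝ} (hM : ∀ t, |B t| ≤ M)
    (a b : ℝ) : IntervalIntegrable (fun t : ℝ => t ^ (α - 1) * B t) volume a b := by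
  have h := rpow_ii hα a b
  rw [intervalIntegrable_iff] at h ⊢
  refine (h.bdd_mul (c := M) (f := B) hB.aestronglyMeasurable
    (Eventually.of_forall fun t => hM t)).congr (Eventually.of_forall fun t => ?_)
  simp only
  ring

lemma R_ii {α : ℝ} (hα : 0 < α) (a b : ℝ) : IntervalIntegrable (R α) volume a b := by
  apply rb_ii hα (M := 1/2)
  · fun_prop
  · intro t
    rw [abs_of_nonneg (P_nonneg t)]
    exact P_le_half t

lemma K_nonneg {α ω : ℝ} (hω : 0 ≤ ω) : 0 ≤ ∫ t in (0:ℝ)..ω, R α t := by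
  apply intervalIntegral.integral_nonneg hω
  intro t ht
  exact mul_nonneg (Real.rpow_nonneg ht.1 _) (P_nonneg t)

lemma K_le {α ω : ℝ} (hα : 0 < α) (hα1 : α ≤ 1) (hω : 1 ≤ ω) :
    ∫ t in (0:ℝ)..ω, R α t ≤ Real.pi / 2 + (1 - α) / (2 * α) := by
  have h1 : (∫ t in (0:ℝ)..1, R α t) + ∫ t in (1:ℝ)..ω, R α t = ∫ t in (0:ℝ)..ω, R α t :=
    intervalIntegral.integral_add_adjacent_intervals (R_ii hα _ _) (R_ii hα _ _)
  have h2 : (∫ t in (0:ℝ)..1, (1 - Real.cos t) / t^2) + ∫ t in (1:ℝ)..ω, (1 - Real.cos t) / t^2 =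
      ∫ t in (0:ℝ)..ω, (1 - Real.cos t) / t^2 :=
    intervalIntegral.integral_add_adjacent_intervals (P_ii _ _) (P_ii _ _)
  have h3 := P_upper (b := ω) (by linarith)
  have h4 : ∫ t in (1:ℝ)..ω, R α t ≤ ∫ t in (1:ℝ)..ω, (1 - Real.cos t) / t^2 := by
    apply intervalIntegral.integral_mono_on hω (R_ii hα _ _) (P_ii _ _)
    intro t ht
    unfold R
    have := Real.rpow_le_one_of_one_le_of_nonpos ht.1 (by linarith : α - 1 ≤ 0)
    calc _ ≤ 1 * ((1 - Real.cos t) / t^2) := by
          gcongr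
          exact P_nonneg t
      _ = _ := one_mul _
  have h5 : ∫ t in (0:ℝ)..1, R α t ≤ ∫ t in (0:ℝ)..1,
      ((1 - Real.cos t) / t^2 + 1/2 * (t ^ (α - 1) - 1)) := by
    have hrhs : IntervalIntegrable (fun t : ℝ => (1 - Real.cos t) / t^2 +
        1/2 * (t ^ (α - 1) - 1)) volume 0 1 :=
      (P_ii _ _).add (((rpow_ii hα _ _).sub intervalIntegrable_const).const_mul _)
    apply intervalIntegral.integral_mono_on_of_le_Ioo zero_le_one (R_ii hα _ _) hrhs
    intro t ht
    unfold R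
    have h6 : 1 ≤ t ^ (α - 1) :=
      Real.one_le_rpow_of_pos_of_le_one_of_nonpos ht.1 ht.2.le (by linarith)
    have h7 := P_le_half t
    have h8 := P_nonneg t
    nlinarith
  have h6 : ∫ t in (0:ℝ)..1, ((1 - Real.cos t) / t^2 + 1/2 * (t ^ (α - 1) - 1)) =
      (∫ t in (0:ℝ)..1, (1 - Real.cos t) / t^2) + (1 - α) / (2 * α) := by
    rw [intervalIntegral.integral_add (P_ii _ _)
      (((rpow_ii hα _ _).sub intervalIntegrable_const).const_mul _),
      intervalIntegral.integral_const_mul,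
      intervalIntegral.integral_sub (rpow_ii hα _ _) intervalIntegrable_const,
      integral_rpow (Or.inl (by linarith))]
    simp
    rw [Real.zero_rpow hα.ne']
    field_simp
    ring
  linarith

lemma cont_rb {α : ℝ} (hα : 0 < α) {B : ℝ → ℝ} (hB : ContinuousOn B (Ioi 0)) {M : ℝ}
    (hM : ∀ t, |B t| ≤ M) : ContinuousOn (fun u : ℝ => u ^ α * B u) (Ici 0) := by
  intro u hu
  rcases eq_or_lt_of_le (mem_Ici.1 hu) with h | h
  · subst h
    have h0 : Tendsto (fun u : ℝ => u ^ α) (𝓝[Ici 0] 0) (𝓝 0) := by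
      have := ((Real.continuous_rpow_const hα.le).tendsto (0:ℝ)).mono_left
        (nhdsWithin_le_nhds (s := Ici 0))
      rwa [Real.zero_rpow hα.ne'] at this
    unfold ContinuousWithinAt
    simp only
    rw [Real.zero_rpow hα.ne', zero_mul]
    have h1 : Tendsto (fun u : ℝ => |u ^ α| * M) (𝓝[Ici 0] 0) (𝓝 0) := by
      have := (h0.abs).mul_const M
      simpa using this
    refine squeeze_zero_norm (fun u => ?_) h1
    rw [norm_mul, Real.norm_eq_abs, Real.norm_eq_abs]
    gcongr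
    exact hM u
  · have hBu : ContinuousAt B u := hB.continuousAt (Ioi_mem_nhds h)
    exact (((Real.continuousAt_rpow_const _ _ (Or.inl h.ne')).mul hBu)).continuousWithinAt

lemma abs_sin_div_le (t : ℝ) : |Real.sin t / t| ≤ 1 := by
  rw [abs_div]
  rcases eq_or_ne t 0 with h | h
  · subst h; simp
  · rw [div_le_one (abs_pos.2 h)]
    exact Real.abs_sin_le_abs

/-- double integration by parts -/
lemma int_sin {α ω : ℝ} (hα : 0 < α) (hω : 0 < ω) (hcos : Real.cos ω = 0) :
    ∫ u in (0:ℝ)..1, u ^ α * Real.sin (ω * u) =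
      α / ω^2 * Real.sin ω + α * (1 - α) / ω^3 +
      α * (1 - α) * (2 - α) / ω * ∫ u in (0:ℝ)..1, u ^ (α - 1) * ((1 - Real.cos (ω * u)) / (ω * u)^2)
      := by
  set B : ℝ → ℝ := fun u => -Real.cos (ω * u) / ω + α / ω * (Real.sin (ω * u) / (ω * u)) +
    α * (1 - α) / ω * ((1 - Real.cos (ω * u)) / (ω * u)^2) with hBdef
  have hBc : ContinuousOn B (Ioi 0) := by
    have hne : ∀ u ∈ Ioi (0:ℝ), ω * u ≠ 0 := fun u hu => (mul_pos hω hu).ne'
    apply ContinuousOn.add
    · apply ContinuousOn.add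
      · fun_prop
      · apply ContinuousOn.mul continuousOn_const
        exact ContinuousOn.div (by fun_prop) (by fun_prop) hne
    · apply ContinuousOn.mul continuousOn_const
      exact ContinuousOn.div (by fun_prop) (by fun_prop) (fun u hu => pow_ne_zero 2 (hne u hu))
  have hBb : ∀ u, |B u| ≤ 1 / ω + |α / ω| * 1 + |α * (1 - α) / ω| * (1/2) := by
    intro u
    calc |B u| ≤ |-Real.cos (ω * u) / ω + α / ω * (Real.sin (ω * u) / (ω * u))| +
          |α * (1 - α) / ω * ((1 - Real.cos (ω * u)) / (ω * u)^2)| := abs_add_le _ _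
      _ ≤ |-Real.cos (ω * u) / ω| + |α / ω * (Real.sin (ω * u) / (ω * u))| +
          |α * (1 - α) / ω * ((1 - Real.cos (ω * u)) / (ω * u)^2)| := by
          gcongr; exact abs_add_le _ _
      _ ≤ _ := by
          rw [abs_div, abs_neg, abs_of_pos hω, abs_mul, abs_mul (α * (1 - α) / ω)]
          gcongr
          · exact Real.abs_cos_le_one _
          · exact abs_sin_div_le _
          · rw [abs_of_nonneg (P_nonneg _)]; exact P_le_half _
  have hGc : ContinuousOn (fun u : ℝ => u ^ α * B u) (Icc 0 1) :=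
    (cont_rb hα hBc hBb).mono Icc_subset_Ici_self
  have hPb : ∀ u : ℝ, |(1 - Real.cos (ω * u)) / (ω * u)^2| ≤ 1/2 := by
    intro u; rw [abs_of_nonneg (P_nonneg _)]; exact P_le_half _
  have hi1 : IntervalIntegrable (fun u : ℝ => u ^ α * Real.sin (ω * u)) volume 0 1 := by
    apply Continuous.intervalIntegrable
    exact (Real.continuous_rpow_const hα.le).mul (by fun_prop)
  have hi2 : IntervalIntegrable (fun u : ℝ => u ^ (α - 1) *
      ((1 - Real.cos (ω * u)) / (ω * u)^2)) volume 0 1 :=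
    rb_ii hα (by fun_prop) hPb _ _
  have hd : ∀ u ∈ Ioo (0:ℝ) 1, HasDerivAt (fun u : ℝ => u ^ α * B u)
      (u ^ α * Real.sin (ω * u) - α * (1 - α) * (2 - α) / ω *
        (u ^ (α - 1) * ((1 - Real.cos (ω * u)) / (ω * u)^2))) u := by
    intro u hu
    have hu0 : 0 < u := hu.1
    have r0 : HasDerivAt (fun u : ℝ => u ^ α) (α * u ^ (α - 1)) u :=
      Real.hasDerivAt_rpow_const (Or.inl hu0.ne')
    have hl : HasDerivAt (fun u : ℝ => ω * u) (ω * 1) u := (hasDerivAt_id u).const_mul ω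
    have dcos : HasDerivAt (fun u : ℝ => Real.cos (ω * u)) (-Real.sin (ω * u) * (ω * 1)) u :=
      hl.cos
    have dsin : HasDerivAt (fun u : ℝ => Real.sin (ω * u)) (Real.cos (ω * u) * (ω * 1)) u :=
      hl.sin
    have hne : ω * u ≠ 0 := (mul_pos hω hu0).ne'
    have d1 : HasDerivAt (fun u : ℝ => -Real.cos (ω * u) / ω)
        (-(-Real.sin (ω * u) * (ω * 1)) / ω) u := (dcos.neg).div_const ω
    have d2 : HasDerivAt (fun u : ℝ => Real.sin (ω * u) / (ω * u)) _ u := dsin.div hl hne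
    have d3 : HasDerivAt (fun u : ℝ => (1 - Real.cos (ω * u)) / (ω * u)^2) _ u :=
      ((hasDerivAt_const u (1:ℝ)).sub dcos).div (hl.pow 2) (pow_ne_zero 2 hne)
    have dB := (d1.add (d2.const_mul (α / ω))).add (d3.const_mul (α * (1 - α) / ω))
    have dG := r0.mul dB
    refine dG.congr_deriv ?_
    have e1 : u ^ (α - 1) = u ^ α / u := Real.rpow_sub_one hu0.ne' α
    simp only [Pi.add_apply, Pi.sub_apply]
    rw [e1]
    have hω' := hω.ne'
    have hu' := hu0.ne'
    field_simp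
    ring
  have hfi := intervalIntegral.integral_eq_sub_of_hasDerivAt_of_le zero_le_one hGc hd
    (hi1.sub (hi2.const_mul _))
  rw [intervalIntegral.integral_sub hi1 (hi2.const_mul _), intervalIntegral.integral_const_mul]
    at hfi
  simp only [hBdef] at hfi
  rw [Real.zero_rpow hα.ne', Real.one_rpow] at hfi
  simp only [mul_one, one_mul, zero_mul, sub_zero, hcos, neg_zero, zero_div, zero_add] at hfi
  have e : α / ω * (Real.sin ω / ω) + α * (1 - α) / ω * (1 / ω^2) =
      α / ω^2 * Real.sin ω + α * (1 - α) / ω^3 := by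
    field_simp
  rw [e] at hfi
  linarith

lemma cc_eq {α ω : ℝ} (hα : 0 < α) (hω : 0 < ω) (hcos : Real.cos ω = 0) :
    cc α ω = α / ω^2 * (1 + Real.sin ω * ((1 - α) / ω +
      (1 - α) * (2 - α) * ω ^ (1 - α) * ∫ t in (0:ℝ)..ω, R α t)) := by
  have h1 : cc α ω = Real.sin ω * ∫ u in (0:ℝ)..1, u ^ α * Real.sin (ω * u) := by
    unfold cc
    have := intervalIntegral.integral_comp_sub_left (a := 0) (b := 1)
      (fun u : ℝ => u ^ α * Real.cos (ω * (1 - u))) 1
    simp only [sub_sub_cancel, sub_self, sub_zero] at this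
    rw [this, ← intervalIntegral.integral_const_mul]
    congr 1
    funext u
    rw [mul_sub, mul_one, Real.cos_sub, hcos]
    ring
  have h2 : ∫ u in (0:ℝ)..1, u ^ (α - 1) * ((1 - Real.cos (ω * u)) / (ω * u)^2) =
      ω ^ (-α) * ∫ t in (0:ℝ)..ω, R α t := by
    have h3 : ∫ u in (0:ℝ)..1, R α (ω * u) = ω⁻¹ • ∫ t in (ω * 0)..(ω * 1), R α t :=
      intervalIntegral.integral_comp_mul_left (R α) hω.ne'
    rw [mul_zero, mul_one, smul_eq_mul] at h3
    have h4 : ∫ u in (0:ℝ)..1, R α (ω * u) = ω ^ (α - 1) *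
        ∫ u in (0:ℝ)..1, u ^ (α - 1) * ((1 - Real.cos (ω * u)) / (ω * u)^2) := by
      rw [← intervalIntegral.integral_const_mul]
      apply intervalIntegral.integral_congr
      intro u hu
      rw [uIcc_of_le zero_le_one] at hu
      simp only [R]
      rw [Real.mul_rpow hω.le hu.1]
      ring
    rw [h3] at h4
    have h5 : ω ^ (-α) * ω ^ (α - 1) = ω⁻¹ := by
      rw [← Real.rpow_add hω]
      have : -α + (α - 1) = -1 := by ring
      rw [this, Real.rpow_neg_one]
    have h6 : ω ^ (1 - α) * ω ^ (α - 1) = 1 := by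
      rw [← Real.rpow_add hω]
      have : 1 - α + (α - 1) = 0 := by ring
      rw [this, Real.rpow_zero]
    have h7 : ω ^ (-α) = ω ^ (1 - α) * ω⁻¹ := by
      rw [← Real.rpow_neg_one, ← Real.rpow_add hω]
      congr 1; ring
    rw [h7, mul_assoc, h4, ← mul_assoc, h6, one_mul]
  rw [h1, int_sin hα hω hcos, h2]
  have h8 : ω ^ (-α) = ω ^ (1 - α) / ω := by
    rw [← Real.rpow_sub_one hω.ne']
    congr 1; ring
  have h9 : Real.sin ω^2 = 1 := by
    have := Real.sin_sq_add_cos_sq ω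
    rw [hcos] at this
    linarith
  rw [h8]
  have h10 : Real.sin ω * (α / ω ^ 2 * Real.sin ω) = α / ω^2 := by
    calc _ = α / ω^2 * Real.sin ω^2 := by ring
      _ = _ := by rw [h9, mul_one]
  rw [mul_add, mul_add, h10]
  field_simp
  ring

end Pool.Agent.H312.NearOne
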