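import Pool.Agent.H312.NearOne.E

open Set Filter Topology MeasureTheory
open scoped ENNReal

namespace Pool.Agent.H312.NearOne

lemma D_le {α : ℝ} (hα : 1/2 ≤ α) :
    Real.pi / 2 + (1 - α) / (2 * α) ≤ 2.1 := by
  have hpi := Real.pi_lt_d2
  have h1 : (1 - α) / (2 * α) ≤ 1/2 := by
    rw [div_le_iff₀ (by linarith)]; linarith
  norm_num at hpi ⊢
  linarith

lemma sin_of_cos {ω : ℝ} (hcos : Real.cos ω = 0) : Real.sin ω = 1 ∨ Real.sin ω = -1 := by
  have := Real.sin_sq_add_cos_sq ω
  rw [hcos] at this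
  exact mul_self_eq_one_iff.1 (by nlinarith)

lemma cc_abs {α ω : ℝ} (hα : 1/2 ≤ α) (hα1 : α < 1) (hω : 1 ≤ ω) (hcos : Real.cos ω = 0) :
    |cc α ω| ≤ 5 * ω ^ (-(1 + α)) := by
  have hα0 : 0 < α := by linarith
  have hω0 : 0 < ω := by linarith
  have hK0 := K_nonneg (α := α) hω0.le
  have hK := K_le hα0 hα1.le hω
  have hD := D_le hα
  set K := ∫ t in (0:ℝ)..ω, R α t with hKdef
  have hX : 1 ≤ ω ^ (1 - α) := Real.one_le_rpow hω (by linarith)
  set X := ω ^ (1 - α) with hXdef
  have hs : |Real.sin ω| ≤ 1 := Real.abs_sin_le_one ω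
  have h1 : (1 - α) / ω ≤ 1 := by rw [div_le_one hω0]; linarith
  have h1' : 0 ≤ (1 - α) / ω := by apply div_nonneg <;> linarith
  have hKb : K ≤ 2.1 := by linarith
  have h2 : (1 - α) * (2 - α) * X * K ≤ 2 * X := by
    have h3 : (1 - α) * (2 - α) ≤ 3/4 := by nlinarith
    have h3' : 0 ≤ (1 - α) * (2 - α) := by apply mul_nonneg <;> linarith
    calc (1 - α) * (2 - α) * X * K ≤ 3/4 * X * 2.1 := by gcongr
      _ ≤ 2 * X := by nlinarith
  have h2' : 0 ≤ (1 - α) * (2 - α) * X * K := by
    have h3' : 0 ≤ (1 - α) * (2 - α) := by apply mul_nonneg <;> linarith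
    positivity
  have h4 : |1 + Real.sin ω * ((1 - α) / ω + (1 - α) * (2 - α) * X * K)| ≤ 5 * X := by
    calc _ ≤ |(1:ℝ)| + |Real.sin ω * ((1 - α) / ω + (1 - α) * (2 - α) * X * K)| := abs_add_le _ _
      _ = 1 + |Real.sin ω| * ((1 - α) / ω + (1 - α) * (2 - α) * X * K) := by
          rw [abs_one, abs_mul, abs_of_nonneg (a := (1 - α) / ω + _) (by linarith)]
      _ ≤ 1 + 1 * (1 + 2 * X) := by gcongr
      _ ≤ 5 * X := by linarith
  rw [cc_eq hα0 hω0 hcos, abs_mul, abs_of_nonneg (a := α / ω^2) (by positivity)]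
  have h5 : ω ^ (-(1 + α)) = X / ω^2 := by
    rw [hXdef, ← Real.rpow_natCast, ← Real.rpow_sub hω0]
    congr 1
    push_cast; ring
  rw [h5]
  calc α / ω^2 * |1 + Real.sin ω * ((1 - α) / ω + (1 - α) * (2 - α) * X * K)| ≤
      1 / ω^2 * (5 * X) := by gcongr
    _ = 5 * (X / ω^2) := by ring

lemma cc_neg_part {α ω q : ℝ} (hα : 1/2 ≤ α) (hα1 : α < 1) (hω : 1 ≤ ω)
    (hcos : Real.cos ω = 0) (hq : 0 < q)
    (hqD : (1 - α) + (2 - α) * (Real.pi / 2 + (1 - α) / (2 * α)) / q ≤ 1) :
    -cc α ω ≤ 5 * (1 - α) * ((1 - α) * q) ^ ((2 * α - 1) / (1 - α)) * ω ^ (α - 2) := by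
  have hα0 : 0 < α := by linarith
  have hε : 0 < 1 - α := by linarith
  have hω0 : 0 < ω := by linarith
  have hK0 := K_nonneg (α := α) hω0.le
  have hK := K_le hα0 hα1.le hω
  have hD := D_le hα
  have hceq := cc_eq hα0 hω0 hcos
  set K := ∫ t in (0:ℝ)..ω, R α t with hKdef
  have hX : 1 ≤ ω ^ (1 - α) := Real.one_le_rpow hω (by linarith)
  set X := ω ^ (1 - α) with hXdef
  set D := Real.pi / 2 + (1 - α) / (2 * α) with hDdef
  have h1 : (1 - α) / ω ≤ 1 - α := div_le_self hε.le hω
  have h1' : 0 ≤ (1 - α) / ω := by apply div_nonneg <;> linarith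
  have hrhs : 0 ≤ 5 * (1 - α) * ((1 - α) * q) ^ ((2 * α - 1) / (1 - α)) * ω ^ (α - 2) := by
    positivity
  have h3' : 0 ≤ (1 - α) * (2 - α) := by apply mul_nonneg <;> linarith
  rcases sin_of_cos hcos with hs | hs
  · -- positive coefficient
    rw [hs] at hceq
    have : 0 ≤ cc α ω := by
      rw [hceq]
      have h2' : 0 ≤ (1 - α) * (2 - α) * X * K := by positivity
      apply mul_nonneg (by positivity)
      linarith
    linarith
  · rw [hs] at hceq
    rcases le_total ((1 - α) * q * X) 1 with hc | hc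
    · have : 0 ≤ cc α ω := by
        rw [hceq]
        apply mul_nonneg (by positivity)
        have h4 : (1 - α) * (2 - α) * X * K ≤ (2 - α) * D / q := by
          rw [le_div_iff₀ hq]
          calc (1 - α) * (2 - α) * X * K * q = (2 - α) * K * ((1 - α) * q * X) := by ring
            _ ≤ (2 - α) * D * 1 := by
              have : 0 ≤ 2 - α := by linarith
              gcongr
            _ = (2 - α) * D := mul_one _
        linarith
      linarith
    · have h5 : 1 ≤ ((1 - α) * q * X) ^ ((2 * α - 1) / (1 - α)) :=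
        Real.one_le_rpow hc (div_nonneg (by linarith) hε.le)
      have h6 : ((1 - α) * q * X) ^ ((2 * α - 1) / (1 - α)) =
          ((1 - α) * q) ^ ((2 * α - 1) / (1 - α)) * ω ^ (2 * α - 1) := by
        rw [Real.mul_rpow (by positivity) (by positivity), hXdef, ← Real.rpow_mul hω0.le]
        congr 2
        field_simp
      have h7 : -cc α ω ≤ (1 / ω^2) * (5 * (1 - α) * X) := by
        rw [hceq]
        have h8 : (1 - α) * (2 - α) * X * K ≤ 4 * (1 - α) * X := by
          have h9 : (2 - α) * K ≤ 4 := by nlinarith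
          calc (1 - α) * (2 - α) * X * K = ((1 - α) * X) * ((2 - α) * K) := by ring
            _ ≤ ((1 - α) * X) * 4 := by gcongr
            _ = _ := by ring
        have h10 : (1 - α) / ω ≤ (1 - α) * X := by nlinarith
        have h8' : 0 ≤ (1 - α) * (2 - α) * X * K := by positivity
        calc -(α / ω ^ 2 * (1 + -1 * ((1 - α) / ω + (1 - α) * (2 - α) * X * K))) =
            α / ω^2 * ((1 - α) / ω + (1 - α) * (2 - α) * X * K) - α / ω^2 := by ring
          _ ≤ α / ω^2 * ((1 - α) / ω + (1 - α) * (2 - α) * X * K) := by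
              have : 0 ≤ α / ω^2 := by positivity
              linarith
          _ ≤ 1 / ω^2 * (5 * (1 - α) * X) := by
              have h11 : (1 - α) / ω + (1 - α) * (2 - α) * X * K ≤ 5 * (1 - α) * X := by linarith
              have h12 : 0 ≤ (1 - α) / ω + (1 - α) * (2 - α) * X * K := by linarith
              gcongr
      have h13 : (1 / ω^2) * (5 * (1 - α) * X) ≤
          (1 / ω^2) * (5 * (1 - α) * X) * ((1 - α) * q * X) ^ ((2 * α - 1) / (1 - α)) :=
        le_mul_of_one_le_right (by positivity) h5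
      refine h7.trans (h13.trans (le_of_eq ?_))
      rw [h6]
      have h14 : ω ^ (α - 2) = (1 / ω^2) * X * ω ^ (2 * α - 1) := by
        rw [hXdef, one_div, ← Real.rpow_natCast, ← Real.rpow_neg hω0.le, ← Real.rpow_add hω0,
          ← Real.rpow_add hω0]
        congr 1
        push_cast
        ring
      rw [h14]
      ring

end Pool.Agent.H312.NearOne
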