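import Pool.Agent.H312.NearOne.F

open Set Filter Topology MeasureTheory
open scoped ENNReal

namespace Pool.Agent.H312.NearOne

/-- the even, `2`-antiperiodic extension of `(1-|ξ|)^α`, on `[-2,2]`. -/
noncomputable def f0 (α x : ℝ) : ℝ := (max (1 - |x|) 0) ^ α - (max (|x| - 1) 0) ^ α

lemma f0_cont {α : ℝ} (hα : 0 ≤ α) : Continuous (f0 α) := by
  have h : Continuous (fun x : ℝ => x ^ α) := Real.continuous_rpow_const hα
  unfold f0
  apply Continuous.sub
  · exact h.comp (by fun_prop)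
  · exact h.comp (by fun_prop)

lemma f0_in {α x : ℝ} (hα : 0 < α) (hx : |x| ≤ 1) : f0 α x = (1 - |x|) ^ α := by
  unfold f0
  rw [max_eq_left (by linarith), max_eq_right (by linarith), Real.zero_rpow hα.ne', sub_zero]

lemma f0_out {α x : ℝ} (hα : 0 < α) (hx : 1 ≤ |x|) : f0 α x = -(|x| - 1) ^ α := by
  unfold f0
  rw [max_eq_right (by linarith), max_eq_left (by linarith), Real.zero_rpow hα.ne', zero_sub]

lemma f0_neg (α x : ℝ) : f0 α (-x) = f0 α x := by
  unfold f0
  rw [abs_neg]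

/-- the Fourier coefficients -/
noncomputable def co (α : ℝ) (n : ℤ) : ℝ := (1 - (-1)^n) / 2 * cc α (n * Real.pi / 2)

lemma int_cos {α : ℝ} (hα : 0 < α) (n : ℤ) :
    ∫ x in (0:ℝ)..2, Real.cos (n * Real.pi / 2 * x) * f0 α x = 2 * co α n := by
  have hc : Continuous (fun x : ℝ => Real.cos (n * Real.pi / 2 * x) * f0 α x) := by
    apply Continuous.mul (by fun_prop) (f0_cont hα.le)
  rw [← intervalIntegral.integral_add_adjacent_intervals (b := 1) (hc.intervalIntegrable _ _)
    (hc.intervalIntegrable _ _)]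
  have h1 : ∫ x in (0:ℝ)..1, Real.cos (n * Real.pi / 2 * x) * f0 α x = cc α (n * Real.pi / 2) := by
    unfold cc
    apply intervalIntegral.integral_congr
    intro x hx
    rw [uIcc_of_le zero_le_one] at hx
    simp only
    rw [f0_in hα (by rw [abs_of_nonneg hx.1]; exact hx.2), abs_of_nonneg hx.1]
    ring
  have h2 : ∫ x in (1:ℝ)..2, Real.cos (n * Real.pi / 2 * x) * f0 α x =
      -(-1)^n * cc α (n * Real.pi / 2) := by
    have h3 := intervalIntegral.integral_comp_sub_left (a := 0) (b := 1)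
      (fun x : ℝ => Real.cos (n * Real.pi / 2 * x) * f0 α x) 2
    have h4 : (2:ℝ) - 1 = 1 := by norm_num
    rw [sub_zero, h4] at h3
    rw [← h3]
    unfold cc
    rw [← intervalIntegral.integral_const_mul]
    apply intervalIntegral.integral_congr
    intro x hx
    rw [uIcc_of_le zero_le_one] at hx
    simp only
    have h5 : |2 - x| = 2 - x := abs_of_nonneg (by linarith [hx.2])
    rw [f0_out hα (by rw [h5]; linarith [hx.2]), h5]
    have h6 : n * Real.pi / 2 * (2 - x) = n * Real.pi - n * Real.pi / 2 * x := by ring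
    rw [h6, Real.cos_int_mul_pi_sub]
    have h7 : 2 - x - 1 = 1 - x := by ring
    rw [h7]
    ring
  rw [h1, h2]
  unfold co
  ring

lemma fourier_f0 {α : ℝ} (hα : 0 < α) (n : ℤ) {T a b : ℝ} (hT : T = 4) (ha : a = -2)
    (hb : b = 2) :
    ∫ x in a..b, fourier (-n) (x : AddCircle T) • ((f0 α x : ℝ) : ℂ) = ((4 * co α n : ℝ) : ℂ)
    := by
  subst hT ha hb
  have hF : ∀ x : ℝ, fourier (-n) (x : AddCircle (4:ℝ)) • ((f0 α x : ℝ) : ℂ) =
      ((Real.cos (n * Real.pi / 2 * x) * f0 α x : ℝ) : ℂ) -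
      ((Real.sin (n * Real.pi / 2 * x) * f0 α x : ℝ) : ℂ) * Complex.I := by
    intro x
    rw [fourier_coe_apply, smul_eq_mul]
    have : 2 * (Real.pi : ℂ) * Complex.I * ((-n : ℤ) : ℂ) * x / ((4:ℝ) : ℂ) =
        ((-(n * Real.pi / 2 * x) : ℝ) : ℂ) * Complex.I := by
      push_cast; ring
    rw [this, Complex.exp_mul_I, ← Complex.ofReal_cos, ← Complex.ofReal_sin, Real.cos_neg,
      Real.sin_neg]
    push_cast; ring
  simp_rw [hF]
  have hc1 : Continuous (fun x : ℝ => Real.cos (n * Real.pi / 2 * x) * f0 α x) :=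
    Continuous.mul (by fun_prop) (f0_cont hα.le)
  have hc2 : Continuous (fun x : ℝ => Real.sin (n * Real.pi / 2 * x) * f0 α x) :=
    Continuous.mul (by fun_prop) (f0_cont hα.le)
  have hi1 : IntervalIntegrable (fun x : ℝ => ((Real.cos (n * Real.pi / 2 * x) * f0 α x : ℝ) : ℂ))
      volume (-2) 2 := (Complex.continuous_ofReal.comp hc1).intervalIntegrable _ _
  have hi2 : IntervalIntegrable (fun x : ℝ => ((Real.sin (n * Real.pi / 2 * x) * f0 α x : ℝ) : ℂ))
      volume (-2) 2 := (Complex.continuous_ofReal.comp hc2).intervalIntegrable _ _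
  rw [intervalIntegral.integral_sub hi1 (hi2.mul_const _), intervalIntegral.integral_mul_const,
    intervalIntegral.integral_ofReal, intervalIntegral.integral_ofReal]
  have e1 : ∫ x in (-2:ℝ)..2, Real.cos (n * Real.pi / 2 * x) * f0 α x = 4 * co α n := by
    rw [← intervalIntegral.integral_add_adjacent_intervals (b := 0) (hc1.intervalIntegrable _ _)
      (hc1.intervalIntegrable _ _), int_cos hα n]
    have h3 := intervalIntegral.integral_comp_neg (a := 0) (b := 2)
      (fun x : ℝ => Real.cos (n * Real.pi / 2 * x) * f0 α x)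
    rw [neg_zero] at h3
    rw [← h3]
    have h4 : ∫ x in (0:ℝ)..2, Real.cos (n * Real.pi / 2 * -x) * f0 α (-x) = 2 * co α n := by
      rw [← int_cos hα n]
      congr 1
      funext x
      rw [f0_neg, mul_neg, Real.cos_neg]
    rw [h4]; ring
  have e2 : ∫ x in (-2:ℝ)..2, Real.sin (n * Real.pi / 2 * x) * f0 α x = 0 := by
    rw [← intervalIntegral.integral_add_adjacent_intervals (b := 0) (hc2.intervalIntegrable _ _)
      (hc2.intervalIntegrable _ _)]
    have h3 := intervalIntegral.integral_comp_neg (a := 0) (b := 2)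
      (fun x : ℝ => Real.sin (n * Real.pi / 2 * x) * f0 α x)
    rw [neg_zero] at h3
    rw [← h3]
    have h4 : ∫ x in (0:ℝ)..2, Real.sin (n * Real.pi / 2 * -x) * f0 α (-x) =
        -∫ x in (0:ℝ)..2, Real.sin (n * Real.pi / 2 * x) * f0 α x := by
      rw [← intervalIntegral.integral_neg]
      congr 1
      funext x
      rw [f0_neg, mul_neg, Real.sin_neg]
      ring
    rw [h4]; ring
  rw [e1, e2]
  simp

lemma hasSum_f0 {α : ℝ} (hα : 0 < α) (hs : Summable (co α)) {ξ : ℝ} (hξ : ξ ∈ Icc (-1:ℝ) 1) :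
    HasSum (fun n : ℤ => ((co α n : ℝ) : ℂ) *
      Complex.exp (-(Complex.I * ((n * Real.pi / 2 : ℝ) : ℂ) * ξ))) (((1 - |ξ|) ^ α : ℝ) : ℂ) := by
  have : Fact ((0:ℝ) < 4) := ⟨by norm_num⟩
  set F : ℝ → ℂ := fun x => ((f0 α x : ℝ) : ℂ) with hF
  have hFc : Continuous F := Complex.continuous_ofReal.comp (f0_cont hα.le)
  have hF4 : F (-2) = F (-2 + 4) := by
    have e : (-2:ℝ) + 4 = 2 := by norm_num
    rw [e]
    simp only [hF]
    rw [f0_neg]
  have hcont : Continuous (AddCircle.liftIco (4:ℝ) (-2) F) :=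
    AddCircle.liftIco_continuous hF4 hFc.continuousOn
  set G : C(AddCircle (4:ℝ), ℂ) := ⟨AddCircle.liftIco (4:ℝ) (-2) F, hcont⟩ with hG
  have hcoef : ∀ n : ℤ, fourierCoeff G n = ((co α n : ℝ) : ℂ) := by
    intro n
    change fourierCoeff (AddCircle.liftIco (4:ℝ) (-2) F) n = _
    rw [fourierCoeff_liftIco_eq, fourierCoeffOn_eq_integral]
    have e2 : (1:ℝ) / ((-2:ℝ) + 4 - -2) = 1/4 := by norm_num
    have h := fourier_f0 hα n (T := (-2:ℝ) + 4 - -2) (a := -2) (b := -2 + 4) (by norm_num) rfl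
      (by norm_num)
    have h' : ∫ x in (-2:ℝ)..(-2 + 4), fourier (-n) (x : AddCircle ((-2:ℝ) + 4 - -2)) • F x =
      ((4 * co α n : ℝ) : ℂ) := h
    rw [h', e2]
    rw [Complex.real_smul]
    push_cast; ring
  have hsC : Summable (fourierCoeff G) := by
    have : fourierCoeff G = fun n => ((co α n : ℝ) : ℂ) := funext hcoef
    rw [this]
    exact Complex.ofRealCLM.summable hs
  have h := has_pointwise_sum_fourier_series_of_summable hsC ((-ξ : ℝ) : AddCircle (4:ℝ))
  have hval : G ((-ξ : ℝ) : AddCircle (4:ℝ)) = (((1 - |ξ|) ^ α : ℝ) : ℂ) := by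
    change AddCircle.liftIco (4:ℝ) (-2) F ((-ξ : ℝ) : AddCircle (4:ℝ)) = _
    rw [AddCircle.liftIco_coe_apply ⟨by linarith [hξ.2], by linarith [hξ.1]⟩]
    simp only [hF]
    rw [f0_neg, f0_in hα (abs_le.2 hξ)]
  rw [hval] at h
  convert! h using 1
  funext n
  rw [hcoef n, fourier_coe_apply, smul_eq_mul]
  congr 2
  push_cast
  ring

end Pool.Agent.H312.NearOne
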