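import Pool.Agent.H312.NearOne.G
import Pool.Graph.R_seed8.Results.MP_1b8a6f_an.ExactNorm

open Set Filter Topology MeasureTheory
open scoped ENNReal

namespace Pool.Agent.H312.NearOne

open Pool.Agent.Results.MP_1b8a6f_an.ExactNorm (norms)

lemma co_even {α : ℝ} {n : ℤ} (hn : Even n) : co α n = 0 := by
  unfold co
  rw [hn.neg_one_zpow]
  simp

lemma co_odd {α : ℝ} {n : ℤ} (hn : Odd n) : co α n = cc α (|(n:ℝ)| * Real.pi / 2) := by
  unfold co
  rw [hn.neg_one_zpow]
  rcases abs_choice (n:ℝ) with h | h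
  · rw [h]; norm_num
  · rw [h]
    have : -(n:ℝ) * Real.pi / 2 = -(n * Real.pi / 2) := by ring
    rw [this, cc_neg]; norm_num

lemma om_facts {n : ℤ} (hn : Odd n) : 1 ≤ |(n:ℝ)| ∧ |(n:ℝ)| ≤ |(n:ℝ)| * Real.pi / 2 ∧
    Real.cos (|(n:ℝ)| * Real.pi / 2) = 0 := by
  have h1 : 1 ≤ |(n:ℝ)| := by
    have h0 : n ≠ 0 := by
      rintro rfl
      exact absurd hn (by decide)
    have := Int.one_le_abs h0
    have h2 : ((1:ℤ):ℝ) ≤ ((|n| : ℤ) : ℝ) := by exact_mod_cast this
    simpa using h2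
  refine ⟨h1, ?_, ?_⟩
  · have := Real.pi_gt_three
    nlinarith
  · have h2 : Real.cos (|(n:ℝ)| * Real.pi / 2) = Real.cos (n * Real.pi / 2) := by
      rcases abs_choice (n:ℝ) with h | h
      · rw [h]
      · rw [h]
        have : -(n:ℝ) * Real.pi / 2 = -(n * Real.pi / 2) := by ring
        rw [this, Real.cos_neg]
    rw [h2, Real.cos_eq_zero_iff]
    obtain ⟨k, rfl⟩ := hn
    exact ⟨k, by push_cast; ring⟩

lemma co_abs {α : ℝ} (hα : 1/2 ≤ α) (hα1 : α < 1) (n : ℤ) :
    |co α n| ≤ 5 * |(n:ℝ)| ^ (-(1 + α)) := by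
  rcases Int.even_or_odd n with hn | hn
  · rw [co_even hn]
    simp only [abs_zero]
    positivity
  · obtain ⟨h1, h2, h3⟩ := om_facts hn
    rw [co_odd hn]
    refine (cc_abs hα hα1 (by linarith) h3).trans ?_
    have := Real.rpow_le_rpow_of_nonpos (by linarith) h2 (z := -(1 + α)) (by linarith)
    gcongr

lemma co_summable {α : ℝ} (hα : 1/2 ≤ α) (hα1 : α < 1) : Summable (co α) := by
  have h : Summable (fun n : ℤ => 5 * |(n:ℝ)| ^ (-(1 + α))) :=
    (Real.summable_abs_int_rpow (by linarith)).mul_left 5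
  refine Summable.of_norm_bounded h (fun n => ?_)
  rw [Real.norm_eq_abs]; exact co_abs hα hα1 n

/-- the bound for the negative parts -/
noncomputable def Mn (α q : ℝ) : ℝ := 5 * (1 - α) * ((1 - α) * q) ^ ((2 * α - 1) / (1 - α))

lemma co_neg {α q : ℝ} (hα : 1/2 ≤ α) (hα1 : α < 1) (hq : 0 < q)
    (hqD : (1 - α) + (2 - α) * (Real.pi / 2 + (1 - α) / (2 * α)) / q ≤ 1) (n : ℤ) :
    -co α n ≤ Mn α q * |(n:ℝ)| ^ (-(2 - α)) := by
  have hM : 0 ≤ Mn α q := by
    unfold Mn
    have : 0 < 1 - α := by linarith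
    positivity
  rcases Int.even_or_odd n with hn | hn
  · rw [co_even hn]
    simp only [neg_zero]
    positivity
  · obtain ⟨h1, h2, h3⟩ := om_facts hn
    rw [co_odd hn]
    refine (cc_neg_part hα hα1 (by linarith) h3 hq hqD).trans ?_
    have := Real.rpow_le_rpow_of_nonpos (by linarith) h2 (z := α - 2) (by linarith)
    have e : -(2 - α) = α - 2 := by ring
    rw [e]
    exact mul_le_mul_of_nonneg_left this hM

lemma abs_co_le {α q : ℝ} (hα : 1/2 ≤ α) (hα1 : α < 1) (hq : 0 < q)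
    (hqD : (1 - α) + (2 - α) * (Real.pi / 2 + (1 - α) / (2 * α)) / q ≤ 1) (n : ℤ) :
    |co α n| ≤ co α n + 2 * (Mn α q * |(n:ℝ)| ^ (-(2 - α))) := by
  have h := co_neg hα hα1 hq hqD n
  have hM : 0 ≤ Mn α q := by
    unfold Mn
    have : 0 < 1 - α := by linarith
    positivity
  have h2 : 0 ≤ Mn α q * |(n:ℝ)| ^ (-(2 - α)) := by positivity
  rcases abs_choice (co α n) with h' | h'
  · rw [h']; linarith
  · rw [h']; linarith

lemma tsum_int {b : ℝ} (hb : 1 < b) :
    ∑' n : ℤ, |(n:ℝ)| ^ (-b) = 2 * ∑' n : ℕ, 1 / (n:ℝ) ^ b := by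
  have hsn : Summable (fun n : ℕ => 1 / (n:ℝ) ^ b) := Real.summable_one_div_nat_rpow.2 hb
  have e1 : ∀ n : ℕ, |((n:ℤ):ℝ)| ^ (-b) = 1 / (n:ℝ) ^ b := by
    intro n
    rw [Int.cast_natCast, abs_of_nonneg (Nat.cast_nonneg n), Real.rpow_neg (Nat.cast_nonneg n),
      one_div]
  have e2 : ∀ n : ℕ, |((-(n:ℤ) : ℤ):ℝ)| ^ (-b) = 1 / (n:ℝ) ^ b := by
    intro n
    rw [Int.cast_neg, abs_neg]
    exact e1 n
  have h := Summable.tsum_of_nat_of_neg (f := fun n : ℤ => |(n:ℝ)| ^ (-b))
    (by simpa only [e1] using hsn) (by simpa only [e2] using hsn)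
  rw [h]
  simp only [e1, e2]
  have : |((0:ℤ):ℝ)| ^ (-b) = 0 := by
    simp
    rw [Real.zero_rpow (by linarith)]
  rw [this]
  ring

lemma sum_co {α : ℝ} (hα : 1/2 ≤ α) (hα1 : α < 1) : ∑' n, co α n = 1 := by
  have hα0 : 0 < α := by linarith
  have h := hasSum_f0 hα0 (co_summable hα hα1) (ξ := 0) ⟨by norm_num, by norm_num⟩
  simp only [Complex.ofReal_zero, mul_zero, neg_zero, Complex.exp_zero, mul_one, abs_zero,
    sub_zero, Real.one_rpow] at h
  have h2 : HasSum (co α) 1 := by exact_mod_cast h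
  exact h2.tsum_eq

lemma sum_abs {α q : ℝ} (hα : 1/2 ≤ α) (hα1 : α < 1) (hq : 0 < q)
    (hqD : (1 - α) + (2 - α) * (Real.pi / 2 + (1 - α) / (2 * α)) / q ≤ 1) :
    ∑' n, |co α n| ≤ 1 + 4 * Mn α q * ∑' n : ℕ, 1 / (n:ℝ) ^ (2 - α) := by
  have hs := co_summable hα hα1
  have hs2 : Summable (fun n : ℤ => |(n:ℝ)| ^ (-(2 - α))) :=
    Real.summable_abs_int_rpow (by linarith)
  have hs3 : Summable (fun n : ℤ => 2 * (Mn α q * |(n:ℝ)| ^ (-(2 - α)))) :=
    (hs2.mul_left _).mul_left _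
  calc ∑' n, |co α n| ≤ ∑' n, (co α n + 2 * (Mn α q * |(n:ℝ)| ^ (-(2 - α)))) :=
        hs.abs.tsum_le_tsum (fun n => abs_co_le hα hα1 hq hqD n) (hs.add hs3)
    _ = 1 + 2 * (Mn α q * ∑' n : ℤ, |(n:ℝ)| ^ (-(2 - α))) := by
        rw [hs.tsum_add hs3, sum_co hα hα1, tsum_mul_left, tsum_mul_left]
    _ = _ := by
        rw [tsum_int (by linarith)]
        ring

lemma norm_mem {α : ℝ} (hα : 1/2 ≤ α) (hα1 : α < 1) : ∑' n, |co α n| ∈ norms α := by
  have hα0 : 0 < α := by linarith
  have hs := co_summable hα hα1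
  have hsa := hs.abs
  set x : ℤ → ℝ := fun n => n * Real.pi / 2 with hx
  set m : ℤ → Measure ℝ := fun n => ENNReal.ofReal |co α n| • Measure.dirac (x n) with hm
  set ν : Measure ℝ := Measure.sum m with hν
  have hfin : IsFiniteMeasure ν := by
    constructor
    rw [hν, Measure.sum_apply _ MeasurableSet.univ]
    have : ∀ n, m n univ = ENNReal.ofReal |co α n| := by
      intro n; simp [hm]
    simp only [this]
    rw [← ENNReal.ofReal_tsum_of_nonneg (fun n => abs_nonneg _) hsa]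
    exact ENNReal.ofReal_lt_top
  set s : ℝ → ℂ := fun y => if 0 ≤ cc α y then 1 else -1 with hsdef
  have hsm : Measurable s := by
    apply Measurable.ite
    · exact measurableSet_le measurable_const (cc_cont hα0.le).measurable
    · exact measurable_const
    · exact measurable_const
  have hsn : ∀ y, ‖s y‖ = 1 := by
    intro y
    simp only [hsdef]
    split_ifs <;> simp
  have hsi : Integrable s ν :=
    Integrable.of_bound hsm.aestronglyMeasurable 1 (Eventually.of_forall fun y => (hsn y).le)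
  have hss : ∀ n, ((|co α n| : ℝ) : ℂ) * s (x n) = ((co α n : ℝ) : ℂ) := by
    intro n
    rcases Int.even_or_odd n with hn | hn
    · rw [co_even hn]; simp
    · have e : co α n = cc α (x n) := by
        unfold co
        rw [hn.neg_one_zpow]
        simp only [hx]
        norm_num
      simp only [hsdef]
      rw [← e]
      split_ifs with h
      · rw [abs_of_nonneg h, mul_one]
      · rw [abs_of_neg (not_le.1 h)]; simp
  have hint : ∀ F : ℝ → ℂ, Integrable F ν →
      ∫ y, F y ∂ν = ∑' n, ((|co α n| : ℝ) : ℂ) * F (x n) := by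
    intro F hF
    rw [hν, integral_sum_measure hF]
    congr 1
    funext n
    simp only [hm]
    rw [integral_smul_measure, integral_dirac, ENNReal.toReal_ofReal (abs_nonneg _),
      Complex.real_smul]
  have key := Pool.Agent.Results.MP_1b8a6f_an.ExactNorm.attained (α := α) hfin hsi (by
    intro ξ hξ
    rw [hint]
    · have h := (hasSum_f0 hα0 hs hξ).tsum_eq
      rw [← h]
      congr 1
      funext n
      rw [← hss n]
      ring
    · refine Integrable.of_bound (C := 1) ?_ (Eventually.of_forall fun y => ?_)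
      · exact ((Continuous.measurable (by fun_prop)).mul hsm).aestronglyMeasurable
      · rw [norm_mul, hsn, mul_one]
        exact Pool.Agent.Results.MP_1b8a6f_an.ExactNorm.exp_bdd y ξ)
  have hval : ∫ y, ‖s y‖ ∂ν = ∑' n, |co α n| := by
    simp only [hsn]
    rw [integral_const, smul_eq_mul, mul_one, Measure.real, hν,
      Measure.sum_apply _ MeasurableSet.univ]
    have : ∀ n, m n univ = ENNReal.ofReal |co α n| := by
      intro n; simp [hm]
    simp only [this]
    rw [← ENNReal.ofReal_tsum_of_nonneg (fun n => abs_nonneg _) hsa,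
      ENNReal.toReal_ofReal (tsum_nonneg fun n => abs_nonneg _)]
  rw [hval] at key
  exact key

end Pool.Agent.H312.NearOne
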